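import Pool.Agent.Y18.GX.One
import Pool.Agent.Y18.GX.Nrm
import Pool.Agent.Y18.GX.Ord

/-!
# Greenberg's conjecture: for almost all primes `p` the small components vanish, for all conductors `N₁ 2^K`, `N₁ 3^K`

Let `p ≥ 5` be a prime. For an even character `θ = ψ ω^m` modulo `N p` (`ψ` a primitive character modulo `N`,
`1 ≤ m ≤ p - 2`) the `θ`-component of the Galois group of the maximal abelian `p`-extension of `ℚ(ζ_{N p^∞})`
unramified outside `p` vanishes, and with it its quotient `X_θ`, if the value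

  `L_p(1 - m, θ) = - (1 - ψ(p) p^(m-1)) B_{m,ψ} / m`

of the Kubota-Leopoldt `p`-adic `L`-function is a unit at all places above `p`. Let `0 ≤ c < 1/2`. We
prove that all but at most `2 · 10^5 X^(1/2 + c) (log X)³` of the primes `p ≤ X` have the property that all these values
with `N = N₁ 2^K` or `N = N₁ 3^K`, `m N₁ ≤ p^c` and any `K ≥ 0` are units (if `ψ(p) ≠ 1` for `m = 1`: otherwise the value
is zero). So for almost all primes `p` we have `X_θ = 0` for all the even characters `θ = ψ ω^m` with `1 ≤ m ≤ p^(1/2 - ε)` and with `ψ`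
of `2`-power or `3`-power conductor (and `ψ(p) ≠ 1` if `m = 1`). For `m = 1` the values are the factors of the relative
class numbers of the fields `ℚ(ζ_N)`.

The proof: if `ℓ^n` is the exact power of `ℓ` dividing `p^(2 h) - 1`, `h = φ(φ(N₁))`, the values with
`m N₁ ℓ^(2 n) ≤ ℓ^K` are units (an explicit form of a theorem of Washington), so only `O(log p)` many `K` remain. For
these the norms of the algebraic integers `m! N^m ∑_a ψ(a) B_m(a/N)` are integers which are not zero (by the functional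
equation) and their product over a system of representatives of all `ψ` modulo `N` up to conjugation has absolute value at
most `exp(c N m log X)`. If `p` divides one of these norms, then `p^f` divides it, where `f` is the residue degree of `p`
in the field of the values of `ψ`, and `f ≥ ℓ^(K-2) / ℓ^v`, `ℓ^v` the power of `ℓ` in `p² - 1`. So for each `N₁, K, m` only
`c N₁ ℓ^v m log X` primes with given `ℓ^v` are exceptional; there are few primes for which `ℓ^v` is large.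
-/

set_option autoImplicit false

namespace Pool.Agent.Results.MP_c2a07f_nt.AlmostAllPrimes

/-- The generalized Bernoulli number `B_{m,ψ} = N^(m-1) ∑_{a=1}^N ψ(a) B_m(a/N)`. -/
noncomputable def genBernoulli (m : ℕ) {N : ℕ} (ψ : DirichletCharacter ℂ N) : ℂ :=
  (N : ℂ) ^ (m - 1) * ∑ a ∈ Finset.Icc 1 N, ψ (a : ZMod N) *
    (((Polynomial.bernoulli m).eval ((a : ℚ) / N) : ℚ) : ℂ)

/-- `(1 - ψ(p) p^(m-1)) B_{m,ψ} / m`, the value at `1 - m` of the `L`-function of `ψ` without Euler factor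
at `p` (up to the sign). -/
noncomputable def lValue (p m : ℕ) {N : ℕ} (ψ : DirichletCharacter ℂ N) : ℂ :=
  (1 - ψ (p : ZMod N) * (p : ℂ) ^ (m - 1)) * genBernoulli m ψ / m

/-- `z` is a unit at all places above `p`: it is not zero, and for some integer `c` prime to `p` the numbers
`c z` and `c / z` are algebraic integers. -/
def IsUnitAt (p : ℕ) (z : ℂ) : Prop :=
  z ≠ 0 ∧ ∃ c : ℤ, IsCoprime (p : ℤ) c ∧ IsIntegral ℤ ((c : ℂ) * z) ∧ IsIntegral ℤ ((c : ℂ) * z⁻¹)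

open Finset Pool.Agent.Y18.GX

lemma sum_Icc {N : ℕ} (f : ℕ → ℂ) (h0 : f 0 = 0) (hN : f N = 0) :
    ∑ a ∈ Icc 1 N, f a = ∑ a ∈ range N, f a := by
  rcases Nat.eq_zero_or_pos N with h | h
  · subst h
    simp
  · have h1 : ∑ a ∈ range (N + 1), f a = ∑ a ∈ range N, f a + f N := Finset.sum_range_succ f N
    have h2 : ∑ a ∈ range (N + 1), f a = ∑ a ∈ Icc 1 N, f a + f 0 := by
      rw [Finset.sum_range_succ']
      congr 1
      refine Finset.sum_bij (fun a _ => a + 1) ?_ ?_ ?_ (fun _ _ => rfl)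
      · intro a ha
        have := mem_range.1 ha
        rw [mem_Icc]
        omega
      · intro a _ b _ hab
        omega
      · intro b hb
        rw [mem_Icc] at hb
        exact ⟨b - 1, mem_range.2 (by omega), by omega⟩
    rw [h1, hN, h0, add_zero, add_zero] at h2
    exact h2.symm

lemma lValue_eq {p m N : ℕ} (hN1 : N ≠ 1) (ψ : DirichletCharacter ℂ N) :
    lValue p m ψ = (1 - ψ (p : ZMod N) * (p : ℂ) ^ (m - 1)) * ((N : ℂ) ^ (m - 1) *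
      ∑ a ∈ range N, ψ (a : ZMod N) * (((Polynomial.bernoulli m).eval ((a : ℚ) / N) : ℚ) : ℂ)) / m := by
  unfold lValue genBernoulli
  rw [sum_Icc]
  · rw [Nat.cast_zero, DirichletCharacter.map_zero' ψ hN1, zero_mul]
  · rw [ZMod.natCast_self, DirichletCharacter.map_zero' ψ hN1, zero_mul]

lemma part_one {p : ℕ} (hp : p.Prime) (h5 : 5 ≤ p) {ℓ : ℕ} (hℓ : ℓ = 2 ∨ ℓ = 3) {N₁ g n : ℕ}
    (hN₁ : N₁.Coprime ℓ) (hpN : ¬ p ∣ N₁) (hg : Even g) (hφ : N₁.totient ∣ p ^ g - 1)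
    (hn : ℓ ^ n ∣ p ^ g - 1) (hn' : ¬ ℓ ^ (n + 1) ∣ p ^ g - 1) {K m : ℕ} (hm1 : 1 ≤ m) (hmp : m ≤ p - 1)
    (hsize : m * N₁ * ℓ ^ (2 * n) ≤ ℓ ^ K) (ψ : DirichletCharacter ℂ (N₁ * ℓ ^ K))
    (hc : ℓ ^ K ∣ ψ.conductor) (hpar : ψ (-1) = (-1) ^ m) : IsUnitAt p (lValue p m ψ) := by
  have hℓp : ℓ.Prime := by rcases hℓ with rfl | rfl <;> norm_num
  have hN0 : N₁ ≠ 0 := by
    rintro rfl
    exact hpN (dvd_zero _)
  have hpodd : Odd p := hp.odd_of_ne_two (by omega)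
  -- `p ^ g` modulo `8` and modulo `3`
  obtain ⟨g', hg'⟩ := hg
  have hpg : p ^ g = (p ^ 2) ^ g' := by
    rw [hg', ← pow_mul]
    congr 1
    ring
  have h8 : p ^ g % 8 = 1 := by
    rw [hpg, Nat.pow_mod]
    have h1 : p ^ 2 % 8 = 1 := by
      have h2 : p % 8 = 1 ∨ p % 8 = 3 ∨ p % 8 = 5 ∨ p % 8 = 7 := by
        obtain ⟨w, hw⟩ := hpodd
        omega
      rw [Nat.pow_mod]
      rcases h2 with h2 | h2 | h2 | h2 <;> rw [h2]
    rw [h1, one_pow]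
    rfl
  have h3 : p ^ g % 3 = 1 := by
    rw [hpg, Nat.pow_mod]
    have h1 : p ^ 2 % 3 = 1 := by
      have h2 : p % 3 = 1 ∨ p % 3 = 2 := by
        have : ¬ 3 ∣ p := fun h => by
          have := (Nat.prime_dvd_prime_iff_eq Nat.prime_three hp).1 h
          omega
        omega
      rw [Nat.pow_mod]
      rcases h2 with h2 | h2 <;> rw [h2]
    rw [h1, one_pow]
    rfl
  have hA : Adm ℓ (p ^ g) := by
    rcases hℓ with rfl | rfl
    · exact Or.inr ⟨rfl, by omega⟩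
    · exact Or.inl ⟨rfl, h3⟩
  have hn1 : 1 ≤ n ∧ 3 ≤ ℓ ^ n := by
    rcases hℓ with rfl | rfl
    · have h4 : ¬ 2 ^ (n + 1) ∣ 8 := fun h => hn' (h.trans (by omega))
      have h6 : 3 ≤ n := by
        by_contra hcon
        exact h4 (pow_dvd_pow 2 (show n + 1 ≤ 3 by omega))
      refine ⟨by omega, ?_⟩
      calc 3 ≤ 2 ^ 3 := by norm_num
        _ ≤ 2 ^ n := Nat.pow_le_pow_right (by norm_num) h6
    · have h6 : 1 ≤ n := by
        by_contra hcon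
        have : n = 0 := by omega
        subst this
        apply hn'
        rw [zero_add, pow_one]
        omega
      refine ⟨h6, ?_⟩
      calc 3 = 3 ^ 1 := by norm_num
        _ ≤ 3 ^ n := Nat.pow_le_pow_right (by norm_num) h6
  obtain ⟨u, hu⟩ := hn
  have huc : u.Coprime ℓ := by
    rw [Nat.coprime_comm, Nat.Prime.coprime_iff_not_dvd hℓp]
    rintro ⟨w, hw⟩
    apply hn'
    rw [hu, hw, pow_succ, ← mul_assoc]
    exact dvd_mul_right _ _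
  have hnK : 2 * n ≤ K := by
    have h6 : ℓ ^ (2 * n) ≤ ℓ ^ K := by
      calc ℓ ^ (2 * n) = 1 * ℓ ^ (2 * n) := (one_mul _).symm
        _ ≤ m * N₁ * ℓ ^ (2 * n) := Nat.mul_le_mul_right _ (Nat.mul_pos (by omega) (Nat.pos_of_ne_zero hN0))
        _ ≤ ℓ ^ K := hsize
    exact (Nat.pow_le_pow_iff_right hℓp.one_lt).1 h6
  have hcop : N₁.Coprime (ℓ ^ K) := hN₁.pow_right K
  have hpℓ : p ≠ ℓ := by rcases hℓ with rfl | rfl <;> omega
  have hprim := snd_prim hcop hℓp (by omega) hN0 ψ hc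
  have hψ₁ : ∀ a, fst hcop ψ a ^ p ^ g = fst hcop ψ a := by
    intro a
    by_cases ha : IsUnit a
    · obtain ⟨U, rfl⟩ := ha
      obtain ⟨w, hw⟩ := hφ
      have h1 : p ^ g = N₁.totient * w + 1 := by
        have : 1 ≤ p ^ g := Nat.one_le_pow _ _ hp.pos
        omega
      rw [h1, pow_succ, pow_mul, ← map_pow, ← Units.val_pow_eq_pow_val, ZMod.pow_totient, Units.val_one, map_one,
        one_pow, one_mul]
    · rw [MulChar.map_nonunit _ ha, zero_pow]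
      exact (Nat.pos_of_ne_zero (pow_ne_zero _ hp.ne_zero)).ne'
  have hN1 : N₁ * ℓ ^ K ≠ 1 := by
    intro h
    have h6 : ℓ ^ K = 1 := Nat.dvd_one.1 (h ▸ dvd_mul_left (ℓ ^ K) N₁)
    have := Nat.one_lt_pow (n := K) (by omega) hℓp.one_lt
    omega
  have hψ1 : ψ ≠ 1 := by
    have : NeZero (N₁ * ℓ ^ K) := ⟨mul_ne_zero hN0 (pow_ne_zero _ hℓp.ne_zero)⟩
    intro h
    rw [h, DirichletCharacter.conductor_one] at hc
    have := Nat.dvd_one.1 hc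
    exact (Nat.one_lt_pow (by omega) hℓp.one_lt).ne' this
  have hsum : ∑ a ∈ range (N₁ * ℓ ^ K), fst hcop ψ (a : ZMod N₁) * snd hcop ψ (a : ZMod (ℓ ^ K)) = 0 := by
    rw [← sum_char (mul_ne_zero hN0 (pow_ne_zero _ hℓp.ne_zero)) ψ hψ1]
    exact Finset.sum_congr rfl fun a _ => (dec_nat hcop ψ a).symm
  have key := unit_main hp (fst hcop ψ) (snd hcop ψ) (by omega) hA hn1.1 hnK hn1.2 hu huc hψ₁ hprim hN₁ hpN hpℓ
    (by rw [← dec_neg, hpar]) hm1 (by omega) hsize hsum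
  simp only [← dec_nat] at key
  rw [lValue_eq hN1]
  exact key

/-- `p` is exceptional: for `ℓ = 2` or `ℓ = 3`, some `N₁` prime to `ℓ`, some `K` and some `m ≥ 1` with `m N₁ ≤ p^c`
there is a primitive character `ψ` modulo `N₁ ℓ^K` with `ψ(-1) = (-1)^m`, and `ψ(p) ≠ 1` if `m = 1`, such that the value
`(1 - ψ(p) p^(m-1)) B_{m,ψ} / m` is not a unit at `p`. -/
def Exceptional (c : ℝ) (p : ℕ) : Prop :=
  ∃ ℓ N₁ K m : ℕ, (ℓ = 2 ∨ ℓ = 3) ∧ N₁.Coprime ℓ ∧ 1 ≤ m ∧ (m : ℝ) * (N₁ : ℝ) ≤ (p : ℝ) ^ c ∧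
    ∃ ψ : DirichletCharacter ℂ (N₁ * ℓ ^ K), ψ.IsPrimitive ∧ ψ (-1) = (-1) ^ m ∧
      (m = 1 → ψ (p : ZMod (N₁ * ℓ ^ K)) ≠ 1) ∧ ¬ IsUnitAt p (lValue p m ψ)

lemma val_one {p m N : ℕ} (hN : N = 1) (hp : p.Prime) (hm1 : 1 ≤ m) (hmp : m + 1 < p)
    (hA0 : 2 ≤ m → p ∉ bad0 m)
    (ψ : DirichletCharacter ℂ N) (hpar : ψ (-1) = (-1) ^ m) : IsUnitAt p (lValue p m ψ) := by
  subst hN
  have hψ : ∀ x, ψ x = 1 := fun x => by
    have : x = 1 := Subsingleton.elim (α := ZMod 1) x 1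
    rw [this, map_one]
  have he : Even m := by
    by_contra hcon
    rw [Nat.not_even_iff_odd] at hcon
    rw [hψ, hcon.neg_one_pow] at hpar
    norm_num at hpar
  have hm : 2 ≤ m := by
    obtain ⟨w, hw⟩ := he
    omega
  have key := unit_zero hp hm he hmp (hA0 hm)
  have h2 : lValue p m ψ = (1 - (p : ℂ) ^ (m - 1)) * ((_root_.bernoulli m : ℚ) : ℂ) / m := by
    unfold lValue genBernoulli
    simp only [hψ, one_mul]
    rw [Icc_self, sum_singleton, Nat.cast_one, Nat.cast_one, one_pow, one_mul, div_one,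
      Polynomial.bernoulli_eval_one, bernoulli_eq_bernoulli'_of_ne_one (by omega)]
  rw [h2]
  exact key

/-- `p` does not divide the order of `ψ` -/
lemma not_dvd_order {p ℓ N₁ K : ℕ} (hp : p.Prime) (h5 : 5 ≤ p) (hℓ : ℓ = 2 ∨ ℓ = 3) (hN₁ : N₁.Coprime ℓ)
    (hN0 : 0 < N₁) (hNp : N₁ < p) (ψ : DirichletCharacter ℂ (N₁ * ℓ ^ K)) : ¬ p ∣ orderOf ψ := by
  intro h
  have hℓp : ℓ.Prime := by rcases hℓ with rfl | rfl <;> norm_num
  have hNpos : 0 < N₁ * ℓ ^ K := Nat.mul_pos hN0 (Nat.pow_pos hℓp.pos)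
  have : NeZero (N₁ * ℓ ^ K) := ⟨hNpos.ne'⟩
  have h1 : orderOf ψ ∣ (N₁ * ℓ ^ K).totient := by
    apply orderOf_dvd_of_pow_eq_one
    ext u
    rw [MulChar.pow_apply_coe, MulChar.one_apply_coe, ← map_pow, ← Units.val_pow_eq_pow_val, ZMod.pow_totient,
      Units.val_one, map_one]
  have h2 : p ∣ N₁.totient * (ℓ ^ K).totient := by
    rw [← Nat.totient_mul (hN₁.pow_right K)]
    exact h.trans h1
  rcases (Nat.Prime.dvd_mul hp).1 h2 with h3 | h3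
  · have := Nat.le_of_dvd (Nat.totient_pos.2 hN0) h3
    have := Nat.totient_le N₁
    omega
  · rcases Nat.eq_zero_or_pos K with hK | hK
    · rw [hK, pow_zero, Nat.totient_one] at h3
      have := Nat.dvd_one.1 h3
      omega
    · rw [Nat.totient_prime_pow hℓp hK] at h3
      rcases (Nat.Prime.dvd_mul hp).1 h3 with h4 | h4
      · have := (Nat.prime_dvd_prime_iff_eq hp hℓp).1 (hp.dvd_of_dvd_pow h4)
        rcases hℓ with rfl | rfl <;> omega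
      · have := Nat.le_of_dvd (by rcases hℓ with rfl | rfl <;> norm_num) h4
        rcases hℓ with rfl | rfl <;> omega

lemma unit_small {p ℓ : ℕ} (hp : p.Prime) (h5 : 5 ≤ p) (hℓ : ℓ = 2 ∨ ℓ = 3) {n₁ : ℕ}
    (h1 : ¬ ℓ ^ (n₁ + 1) ∣ p ^ 2 - 1) {N₁ K m : ℕ} (hm : 1 ≤ m) (hmp : m + 1 < p) (hN₁ : N₁.Coprime ℓ)
    (hN0 : 0 < N₁) (hNp : N₁ < p) (hN : 1 < N₁ * ℓ ^ K) (hA2 : p ∉ badR (N₁ * ℓ ^ K) m (ℓ ^ (K - 2 - n₁)))
    (ψ : DirichletCharacter ℂ (N₁ * ℓ ^ K)) (hprim : ψ.IsPrimitive) (hpar : ψ (-1) = (-1) ^ m)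
    (h1ψ : m = 1 → ψ (p : ZMod (N₁ * ℓ ^ K)) ≠ 1) : IsUnitAt p (lValue p m ψ) := by
  classical
  have hℓp : ℓ.Prime := by rcases hℓ with rfl | rfl <;> norm_num
  have hne : NeZero (N₁ * ℓ ^ K) := ⟨by omega⟩
  have hpN₁ : ¬ p ∣ N₁ := fun h => by
    have := Nat.le_of_dvd hN0 h
    omega
  have hpN : ¬ p ∣ N₁ * ℓ ^ K := by
    intro h3
    rcases (Nat.Prime.dvd_mul hp).1 h3 with h4 | h4
    · exact hpN₁ h4
    · have := (Nat.prime_dvd_prime_iff_eq hp hℓp).1 (hp.dvd_of_dvd_pow h4)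
      rcases hℓ with rfl | rfl <;> omega
  rw [lValue_eq hN.ne']
  refine unit_of_not_dvd1 hN ψ hprim hm hpar hp (by omega) hpN (not_dvd_order hp h5 hℓ hN₁ hN0 hNp ψ) h1ψ
    fun hD => hA2 ?_
  obtain ⟨h0, -⟩ := DG_ne_zero' hN ψ hprim hm hpar
  obtain ⟨f, hf, hfD, hfd⟩ := norm_pow (order_pos ψ) hp (not_dvd_order hp h5 hℓ hN₁ hN0 hNp ψ) (RG m ψ) hD
  have hfD' : p ^ f ∣ (DG m ψ).natAbs := hfD
  have hr : ℓ ^ (K - 2 - n₁) ≤ f := by
    rcases Nat.lt_or_ge (n₁ + 2) K with h3 | h3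
    · have hc : ℓ ^ K ∣ ψ.conductor := by
        rw [DirichletCharacter.isPrimitive_def] at hprim
        rw [hprim]
        exact dvd_mul_left _ _
      have h4 := degree_large hp h5 hℓ (by omega : 3 ≤ K) (hN₁.pow_right K) hN0.ne' ψ hc h1 hf hfd
      have h6 : ℓ ^ n₁ * ℓ ^ (K - 2 - n₁) ≤ ℓ ^ n₁ * f := by
        rw [← pow_add, show n₁ + (K - 2 - n₁) = K - 2 by omega]
        exact h4
      exact Nat.le_of_mul_le_mul_left h6 (Nat.pow_pos hℓp.pos)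
    · rw [show K - 2 - n₁ = 0 by omega, pow_zero]
      exact hf
  rw [badR_eq, mem_biUnion]
  refine ⟨ψ, mem_filter.2 ⟨mem_univ _, hprim, hpar⟩, mem_filter.2 ⟨?_, (pow_dvd_pow p hr).trans hfD'⟩⟩
  rw [Nat.mem_primeFactors]
  exact ⟨hp, hD, Int.natAbs_ne_zero.2 h0⟩

lemma key {p ℓ : ℕ} (hp : p.Prime) (h5 : 5 ≤ p) (hℓ : ℓ = 2 ∨ ℓ = 3) {n₁ κ Q : ℕ}
    (h1 : ¬ ℓ ^ (n₁ + 1) ∣ p ^ 2 - 1) (hκ : Q ^ 3 * (ℓ ^ n₁) ^ 2 < ℓ ^ (κ + 1)) {N₁ K m : ℕ} (hm : 1 ≤ m)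
    (hQ : m * N₁ ≤ Q) (hmp : m + 1 < p) (hN₁ : N₁.Coprime ℓ) (hNp : N₁ < p)
    (hA2 : K ≤ κ → 1 < N₁ * ℓ ^ K → p ∉ badR (N₁ * ℓ ^ K) m (ℓ ^ (K - 2 - n₁))) (hA0 : 2 ≤ m → p ∉ bad0 m)
    (ψ : DirichletCharacter ℂ (N₁ * ℓ ^ K)) (hprim : ψ.IsPrimitive) (hpar : ψ (-1) = (-1) ^ m)
    (h1ψ : m = 1 → ψ (p : ZMod (N₁ * ℓ ^ K)) ≠ 1) : IsUnitAt p (lValue p m ψ) := by
  have hℓp : ℓ.Prime := by rcases hℓ with rfl | rfl <;> norm_num
  have hN0 : 0 < N₁ := by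
    rcases Nat.eq_zero_or_pos N₁ with h | h
    · subst h
      rw [Nat.coprime_zero_left] at hN₁
      exact absurd hN₁ hℓp.one_lt.ne'
    · exact h
  have hNpos : 0 < N₁ * ℓ ^ K := Nat.mul_pos hN0 (Nat.pow_pos hℓp.pos)
  rcases (by omega : N₁ * ℓ ^ K = 1 ∨ 1 < N₁ * ℓ ^ K) with hN | hN
  · exact val_one hN hp hm hmp hA0 ψ hpar
  have hpN₁ : ¬ p ∣ N₁ := fun h => by
    have := Nat.le_of_dvd hN0 h
    omega
  rcases Nat.lt_or_ge κ K with h2 | h2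
  · set h := N₁.totient.totient with hh
    have ht : 0 < N₁.totient := Nat.totient_pos.2 hN0
    have hh1 : 1 ≤ h := Nat.totient_pos.2 ht
    have hhN : h ≤ N₁ := (Nat.totient_le _).trans (Nat.totient_le _)
    have hφ : N₁.totient ∣ p ^ (2 * h) - 1 := by
      have hc : Nat.Coprime p N₁.totient := by
        rw [Nat.Prime.coprime_iff_not_dvd hp]
        intro h3
        have := Nat.le_of_dvd ht h3
        have := Nat.totient_le N₁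
        omega
      have h3 := (Nat.ModEq.pow_totient hc).pow 2
      rw [one_pow, ← pow_mul, mul_comm] at h3
      exact (Nat.modEq_iff_dvd' (Nat.one_le_pow _ _ hp.pos)).1 h3.symm
    have hpos : p ^ (2 * h) - 1 ≠ 0 := by
      have : 1 < p ^ (2 * h) := Nat.one_lt_pow (by omega) hp.one_lt
      omega
    have hfact : Fact ℓ.Prime := ⟨hℓp⟩
    have hn : ℓ ^ padicValNat ℓ (p ^ (2 * h) - 1) ∣ p ^ (2 * h) - 1 := pow_padicValNat_dvd
    have hn' : ¬ ℓ ^ (padicValNat ℓ (p ^ (2 * h) - 1) + 1) ∣ p ^ (2 * h) - 1 := pow_succ_padicValNat_not_dvd hpos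
    have h3 := lte hp h5 hℓ hh1 h1 hn
    rw [Nat.add_sub_cancel] at h3
    refine part_one hp h5 hℓ hN₁ hpN₁ ⟨h, by ring⟩ hφ hn hn' (K := K) (by omega) (by omega) ?_ ψ ?_ hpar
    · calc m * N₁ * ℓ ^ (2 * padicValNat ℓ (p ^ (2 * h) - 1))
          = m * N₁ * (ℓ ^ padicValNat ℓ (p ^ (2 * h) - 1)) ^ 2 := by rw [mul_comm 2, pow_mul]
        _ ≤ Q * (ℓ ^ n₁ * Q) ^ 2 := by
            refine Nat.mul_le_mul hQ (Nat.pow_le_pow_left (h3.trans ?_) 2)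
            refine Nat.mul_le_mul_left _ (hhN.trans (le_trans ?_ hQ))
            exact Nat.le_mul_of_pos_left _ (by omega)
        _ = Q ^ 3 * (ℓ ^ n₁) ^ 2 := by ring
        _ ≤ ℓ ^ (κ + 1) := hκ.le
        _ ≤ ℓ ^ K := Nat.pow_le_pow_right hℓp.pos h2
    · rw [DirichletCharacter.isPrimitive_def] at hprim
      rw [hprim]
      exact dvd_mul_left _ _
  · exact unit_small hp h5 hℓ h1 hm hmp hN₁ hN0 hNp hN (hA2 h2 hN) ψ hprim hpar h1ψ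

open Classical in
/-- the exceptional primes from the small conductors -/
noncomputable def A2 (ℓ n₁ κ Q : ℕ) : Finset ℕ :=
  (Icc 1 Q).biUnion fun a => ((Icc 1 (Q / a) ×ˢ range (κ + 1)).filter fun q => 1 < a * ℓ ^ q.2).biUnion
    fun q => badR (a * ℓ ^ q.2) q.1 (ℓ ^ (q.2 - 2 - n₁))

lemma card_A2 {ℓ n₁ κ Q s : ℕ} (hℓ : 1 ≤ ℓ) (hs1 : 1 ≤ s) (hM : Q ≤ 2 ^ s) (hκs : κ ≤ s)
    (hN : Q * ℓ ^ κ ≤ 2 ^ s) :
    (A2 ℓ n₁ κ Q).card ≤ (∑ a ∈ Icc 1 Q, Q / a) * (10 * s ^ 2 * (Q * ℓ ^ (n₁ + 2))) := by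
  classical
  unfold A2
  refine card_biUnion_le.trans ?_
  rw [sum_mul]
  refine sum_le_sum fun a ha => ?_
  rw [mem_Icc] at ha
  calc _ ≤ ∑ q ∈ (Icc 1 (Q / a) ×ˢ range (κ + 1)).filter (fun q => 1 < a * ℓ ^ q.2),
        (badR (a * ℓ ^ q.2) q.1 (ℓ ^ (q.2 - 2 - n₁))).card := card_biUnion_le
    _ ≤ ∑ q ∈ (Icc 1 (Q / a) ×ˢ range (κ + 1)).filter (fun q => 1 < a * ℓ ^ q.2),
        ℓ ^ (n₁ + 2) * (s * (5 * Q)) := by
        refine sum_le_sum fun q hq => ?_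
        rw [mem_filter, mem_product, mem_Icc, mem_range] at hq
        obtain ⟨⟨⟨h1, h2⟩, h3⟩, h6⟩ := hq
        have hq1 : a * q.1 ≤ Q := by
          calc a * q.1 ≤ a * (Q / a) := Nat.mul_le_mul_left _ h2
            _ ≤ Q := Nat.mul_div_le Q a
        have hq2 : q.1 ≤ Q := (Nat.le_mul_of_pos_left _ (by omega)).trans hq1
        have h7 : a * ℓ ^ q.2 ≤ Q * ℓ ^ κ := Nat.mul_le_mul ha.2 (Nat.pow_le_pow_right hℓ (by omega))
        have h8 := card_badR' (s := s) (r := ℓ ^ (q.2 - 2 - n₁)) h6 h1 (h7.trans hN) (hq2.trans hM)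
        have h9 : ℓ ^ q.2 ≤ ℓ ^ (q.2 - 2 - n₁) * ℓ ^ (n₁ + 2) := by
          rw [← pow_add]
          exact Nat.pow_le_pow_right hℓ (by omega)
        have h11 : a * (3 * q.1 + 2) ≤ 5 * Q := by
          calc a * (3 * q.1 + 2) ≤ a * (5 * q.1) := Nat.mul_le_mul_left _ (by omega)
            _ = 5 * (a * q.1) := by ring
            _ ≤ 5 * Q := Nat.mul_le_mul_left _ hq1
        have h10 : ℓ ^ (q.2 - 2 - n₁) * (badR (a * ℓ ^ q.2) q.1 (ℓ ^ (q.2 - 2 - n₁))).card ≤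
            ℓ ^ (q.2 - 2 - n₁) * (ℓ ^ (n₁ + 2) * (s * (5 * Q))) := by
          calc _ ≤ a * ℓ ^ q.2 * (s * (3 * q.1 + 2)) := h8
            _ = ℓ ^ q.2 * (s * (a * (3 * q.1 + 2))) := by ring
            _ ≤ (ℓ ^ (q.2 - 2 - n₁) * ℓ ^ (n₁ + 2)) * (s * (5 * Q)) :=
                Nat.mul_le_mul h9 (Nat.mul_le_mul_left _ h11)
            _ = _ := by ring
        exact Nat.le_of_mul_le_mul_left h10 (Nat.pow_pos hℓ)
    _ ≤ ∑ q ∈ Icc 1 (Q / a) ×ˢ range (κ + 1), ℓ ^ (n₁ + 2) * (s * (5 * Q)) :=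
        sum_le_sum_of_subset (filter_subset _ _)
    _ = (Q / a * (κ + 1)) * (ℓ ^ (n₁ + 2) * (s * (5 * Q))) := by
        rw [sum_const, card_product, Nat.card_Icc, card_range, smul_eq_mul, Nat.add_sub_cancel]
    _ ≤ (Q / a * (2 * s)) * (ℓ ^ (n₁ + 2) * (s * (5 * Q))) :=
        Nat.mul_le_mul_right _ (Nat.mul_le_mul_left _ (by omega))
    _ = Q / a * (10 * s ^ 2 * (Q * ℓ ^ (n₁ + 2))) := by ring

lemma sum_div_le (Q : ℕ) (hQ : 1 ≤ Q) {X : ℝ} (hX : 1 ≤ X) (hQX : (Q : ℝ) ≤ X) :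
    ((∑ a ∈ Icc 1 Q, Q / a : ℕ) : ℝ) ≤ Q * (1 + Real.log X) := by
  have h1 : ((∑ a ∈ Icc 1 Q, Q / a : ℕ) : ℝ) ≤ Q * ((harmonic Q : ℚ) : ℝ) := by
    rw [harmonic_eq_sum_Icc]
    push_cast
    rw [mul_sum]
    refine sum_le_sum fun a _ => ?_
    calc ((Q / a : ℕ) : ℝ) ≤ (Q : ℝ) / (a : ℝ) := Nat.cast_div_le
      _ = Q * (a : ℝ)⁻¹ := div_eq_mul_inv _ _
  refine h1.trans (mul_le_mul_of_nonneg_left ?_ (by positivity))
  refine (harmonic_le_one_add_log Q).trans ?_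
  have : Real.log Q ≤ Real.log X := Real.log_le_log (by exact_mod_cast hQ) hQX
  linarith

lemma card_A0 {M s : ℕ} (hM : 1 ≤ M) (hs : M + 1 ≤ 2 ^ s) :
    ((Icc 2 M).biUnion bad0).card ≤ 4 * s * M ^ 2 := by
  calc ((Icc 2 M).biUnion bad0).card ≤ ∑ m ∈ Icc 2 M, (bad0 m).card := card_biUnion_le
    _ ≤ ∑ m ∈ Icc 2 M, 4 * s * M := by
        refine sum_le_sum fun m hm => ?_
        rw [mem_Icc] at hm
        refine (card_bad0 (s := s) (by omega) (by omega)).trans ?_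
        calc s * (2 * (m + 1)) ≤ s * (2 * (2 * M)) := Nat.mul_le_mul_left _ (by omega)
          _ = 4 * s * M := by ring
    _ = (M - 1) * (4 * s * M) := by
        rw [sum_const, Nat.card_Icc, smul_eq_mul]
        congr 1
    _ ≤ M * (4 * s * M) := Nat.mul_le_mul_right _ (by omega)
    _ = 4 * s * M ^ 2 := by ring

lemma small_m {p m : ℕ} {a : ℝ} (h0 : a < 1 / 2) (hp : 5 ≤ p) (hm1 : 1 ≤ m) (h : (m : ℝ) ≤ (p : ℝ) ^ a) :
    m + 1 < p := by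
  rcases hm1.eq_or_lt with hm2 | hm
  · omega
  have hp1 : (1 : ℝ) ≤ p := by exact_mod_cast (by omega : 1 ≤ p)
  have h1 : (m : ℝ) ^ 2 ≤ p := by
    calc (m : ℝ) ^ 2 ≤ ((p : ℝ) ^ a) ^ 2 := pow_le_pow_left₀ (by positivity) h 2
      _ ≤ ((p : ℝ) ^ (1 / 2 : ℝ)) ^ 2 := by
          refine pow_le_pow_left₀ (by positivity) ?_ 2
          exact Real.rpow_le_rpow_of_exponent_le hp1 (by linarith)
      _ = p := by
          rw [← Real.rpow_natCast, ← Real.rpow_mul (by positivity)]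
          norm_num
  have h2 : m ^ 2 ≤ p := by exact_mod_cast h1
  have h3 : m * 2 ≤ m ^ 2 := by
    rw [pow_two]
    exact Nat.mul_le_mul_left _ hm
  omega

lemma small_N {p N : ℕ} {b : ℝ} (h0 : b < 1) (hp : 2 ≤ p) (h : (N : ℝ) ≤ (p : ℝ) ^ b) : N < p := by
  have hp1 : (1 : ℝ) < p := by exact_mod_cast (by omega : 1 < p)
  have h1 : (N : ℝ) < p := by
    calc (N : ℝ) ≤ (p : ℝ) ^ b := h
      _ < (p : ℝ) ^ (1 : ℝ) := Real.rpow_lt_rpow_of_exponent_lt hp1 h0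
      _ = p := Real.rpow_one _
  exact_mod_cast h1

/-- the exponents `κ` and the bounds, for one `ℓ` -/
lemma one_ell {c τ X : ℝ} (hc : 0 ≤ c) (hτ : τ = 1 - 2 * c) (hτ0 : 0 < τ) (hX : 2 ≤ X)
    {ℓ : ℕ} (hℓ : ℓ = 2 ∨ ℓ = 3) {Q s Y : ℕ} (hQ1 : 1 ≤ Q) (hQ : (Q : ℝ) ≤ X ^ c)
    (hYX : (Y : ℝ) ≤ X) (hs1 : 1 ≤ s) (hs : 16 * X ^ 2 ≤ (2 : ℝ) ^ s) :
    ∃ n κ : ℕ, Q ^ 3 * (ℓ ^ n) ^ 2 < ℓ ^ (κ + 1) ∧ ((A1 ℓ n Y).card : ℝ) ≤ 4 * X ^ (1 - τ / 2) ∧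
      ((A2 ℓ n κ Q).card : ℝ) ≤ 270 * (s : ℝ) ^ 2 * (1 + Real.log X) * X ^ (1 - τ / 2) := by
  have hX0 : (0 : ℝ) < X := by linarith
  have hX1 : (1 : ℝ) ≤ X := by linarith
  have hℓ1 : 1 < ℓ := by rcases hℓ with rfl | rfl <;> norm_num
  have hℓ3 : ℓ ≤ 3 := by rcases hℓ with rfl | rfl <;> norm_num
  set E := ⌊X ^ (τ / 2)⌋₊ with hE
  have hXε : (1 : ℝ) ≤ X ^ (τ / 2) := Real.one_le_rpow hX1 (by positivity)
  have hE1 : 1 ≤ E := Nat.le_floor (by exact_mod_cast hXε)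
  have hEX : (E : ℝ) ≤ X ^ (τ / 2) := Nat.floor_le (by positivity)
  set n := Nat.log ℓ E + 1 with hn
  have hT1 : X ^ (τ / 2) < ((ℓ ^ n : ℕ) : ℝ) := by
    have h2 : E < ℓ ^ n := Nat.lt_pow_succ_log_self hℓ1 E
    exact (Nat.floor_lt (by positivity)).1 h2
  have hT2 : ((ℓ ^ n : ℕ) : ℝ) ≤ 3 * X ^ (τ / 2) := by
    have h2 : ℓ ^ n ≤ 3 * E := by
      rw [hn, pow_succ, mul_comm]
      exact Nat.mul_le_mul hℓ3 (Nat.pow_log_le_self ℓ (by omega))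
    have h3 : ((ℓ ^ n : ℕ) : ℝ) ≤ 3 * (E : ℝ) := by exact_mod_cast h2
    linarith
  set κ := Nat.log ℓ (Q ^ 3 * (ℓ ^ n) ^ 2) with hκdef
  have hκ1 : Q ^ 3 * (ℓ ^ n) ^ 2 < ℓ ^ (κ + 1) := Nat.lt_pow_succ_log_self hℓ1 _
  have hκ2 : ℓ ^ κ ≤ Q ^ 3 * (ℓ ^ n) ^ 2 := Nat.pow_log_le_self ℓ (by positivity)
  have hW0 : 0 < X ^ (1 - τ / 2) := by positivity
  have hWeq : X ^ (1 - τ / 2) = X / X ^ (τ / 2) := by rw [Real.rpow_sub hX0, Real.rpow_one]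
  have hκR : ((ℓ : ℝ) ^ κ) ≤ Q ^ 3 * (9 * (X ^ (τ / 2)) ^ 2) := by
    have e1 : ((ℓ ^ κ : ℕ) : ℝ) ≤ ((Q ^ 3 * (ℓ ^ n) ^ 2 : ℕ) : ℝ) := by exact_mod_cast hκ2
    rw [Nat.cast_mul, Nat.cast_pow (ℓ ^ n) 2] at e1
    rw [Nat.cast_pow ℓ κ] at e1
    refine e1.trans ?_
    push_cast at hT2 ⊢
    refine mul_le_mul_of_nonneg_left ?_ (by positivity)
    calc (((ℓ : ℝ) ^ n)) ^ 2 ≤ (3 * X ^ (τ / 2)) ^ 2 := pow_le_pow_left₀ (by positivity) hT2 2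
      _ = 9 * (X ^ (τ / 2)) ^ 2 := by ring
  have hpow2 : (X ^ (τ / 2)) ^ 2 = X ^ τ := by
    rw [← Real.rpow_natCast, ← Real.rpow_mul hX0.le]
    congr 1
    push_cast
    ring
  have hZκ : (Q : ℝ) * (ℓ : ℝ) ^ κ ≤ 16 * X ^ 2 := by
    calc (Q : ℝ) * (ℓ : ℝ) ^ κ ≤ Q * (Q ^ 3 * (9 * (X ^ (τ / 2)) ^ 2)) :=
          mul_le_mul_of_nonneg_left hκR (by positivity)
      _ = 9 * ((Q : ℝ) ^ 4 * X ^ τ) := by rw [hpow2]; ring
      _ ≤ 9 * ((X ^ c) ^ 4 * X ^ τ) := by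
          refine mul_le_mul_of_nonneg_left ?_ (by norm_num)
          exact mul_le_mul_of_nonneg_right (pow_le_pow_left₀ (by positivity) hQ 4) (by positivity)
      _ = 9 * X ^ (4 * c + τ) := by
          rw [← Real.rpow_natCast (X ^ c), ← Real.rpow_mul hX0.le, ← Real.rpow_add hX0]
          congr 2
          push_cast
          ring
      _ ≤ 9 * X ^ (2 : ℝ) := by
          refine mul_le_mul_of_nonneg_left ?_ (by norm_num)
          exact Real.rpow_le_rpow_of_exponent_le hX1 (by linarith)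
      _ ≤ 16 * X ^ 2 := by
          rw [show (2 : ℝ) = ((2 : ℕ) : ℝ) by norm_num, Real.rpow_natCast]
          have : (0 : ℝ) ≤ X ^ 2 := by positivity
          linarith
  have hN : Q * ℓ ^ κ ≤ 2 ^ s := by
    have : ((Q * ℓ ^ κ : ℕ) : ℝ) ≤ ((2 ^ s : ℕ) : ℝ) := by
      push_cast
      exact hZκ.trans hs
    exact_mod_cast this
  have hκs : κ ≤ s := by
    have h2 : 2 ^ κ ≤ 2 ^ s := by
      calc 2 ^ κ ≤ ℓ ^ κ := Nat.pow_le_pow_left hℓ1 κ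
        _ = 1 * ℓ ^ κ := (one_mul _).symm
        _ ≤ Q * ℓ ^ κ := Nat.mul_le_mul_right _ hQ1
        _ ≤ 2 ^ s := hN
    exact (Nat.pow_le_pow_iff_right (by norm_num : 1 < 2)).1 h2
  have hQs : Q ≤ 2 ^ s := (Nat.le_mul_of_pos_right _ (Nat.pow_pos (by omega))).trans hN
  have hQX : (Q : ℝ) ≤ X := by
    calc (Q : ℝ) ≤ X ^ c := hQ
      _ ≤ X ^ (1 : ℝ) := Real.rpow_le_rpow_of_exponent_le hX1 (by linarith)
      _ = X := Real.rpow_one X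
  refine ⟨n, κ, hκ1, ?_, ?_⟩
  · have c1 := card_A1 hℓ n Y
    have e1 : ((Y / ℓ ^ n : ℕ) : ℝ) ≤ 2 * X ^ (1 - τ / 2) := by
      calc ((Y / ℓ ^ n : ℕ) : ℝ) ≤ (Y : ℝ) / ((ℓ ^ n : ℕ) : ℝ) := Nat.cast_div_le
        _ ≤ (2 * X) / X ^ (τ / 2) := div_le_div₀ (by positivity) (by linarith) (by positivity) hT1.le
        _ = 2 * X ^ (1 - τ / 2) := by rw [hWeq]; ring
    have e2 : (((Y + 1) / ℓ ^ n : ℕ) : ℝ) ≤ 2 * X ^ (1 - τ / 2) := by
      calc (((Y + 1) / ℓ ^ n : ℕ) : ℝ) ≤ ((Y + 1 : ℕ) : ℝ) / ((ℓ ^ n : ℕ) : ℝ) := Nat.cast_div_le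
        _ ≤ (2 * X) / X ^ (τ / 2) := by
            refine div_le_div₀ (by positivity) ?_ (by positivity) hT1.le
            push_cast
            linarith
        _ = 2 * X ^ (1 - τ / 2) := by rw [hWeq]; ring
    have e3 : ((A1 ℓ n Y).card : ℝ) ≤ ((Y / ℓ ^ n : ℕ) : ℝ) + (((Y + 1) / ℓ ^ n : ℕ) : ℝ) := by exact_mod_cast c1
    linarith
  · have c2 := card_A2 (n₁ := n) (by omega : 1 ≤ ℓ) hs1 hQs hκs hN
    have e1 : ((A2 ℓ n κ Q).card : ℝ) ≤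
        ((∑ a ∈ Icc 1 Q, Q / a : ℕ) : ℝ) * (10 * s ^ 2 * (Q * ℓ ^ (n + 2))) := by exact_mod_cast c2
    have hlog0 : 0 ≤ Real.log X := Real.log_nonneg hX1
    have e0 := sum_div_le Q hQ1 hX1 hQX
    have hℓR : (ℓ : ℝ) ≤ 3 := by exact_mod_cast hℓ3
    have hℓn : (ℓ : ℝ) ^ (n + 2) ≤ 27 * X ^ (τ / 2) := by
      push_cast at hT2
      rw [pow_add]
      calc (ℓ : ℝ) ^ n * (ℓ : ℝ) ^ 2 ≤ (3 * X ^ (τ / 2)) * 3 ^ 2 :=
            mul_le_mul hT2 (pow_le_pow_left₀ (by positivity) hℓR 2) (by positivity) (by positivity)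
        _ = 27 * X ^ (τ / 2) := by ring
    have e2 : (Q : ℝ) ^ 2 * ℓ ^ (n + 2) ≤ 27 * X ^ (1 - τ / 2) := by
      calc (Q : ℝ) ^ 2 * ℓ ^ (n + 2) ≤ (X ^ c) ^ 2 * (27 * X ^ (τ / 2)) :=
            mul_le_mul (pow_le_pow_left₀ (by positivity) hQ 2) hℓn (by positivity) (by positivity)
        _ = 27 * ((X ^ c) ^ 2 * X ^ (τ / 2)) := by ring
        _ = 27 * X ^ (1 - τ / 2) := by
            rw [← Real.rpow_natCast (X ^ c), ← Real.rpow_mul hX0.le, ← Real.rpow_add hX0]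
            congr 2
            push_cast
            rw [hτ]
            ring
    calc ((A2 ℓ n κ Q).card : ℝ) ≤
        ((∑ a ∈ Icc 1 Q, Q / a : ℕ) : ℝ) * (10 * s ^ 2 * (Q * ℓ ^ (n + 2))) := e1
      _ ≤ (Q * (1 + Real.log X)) * (10 * s ^ 2 * (Q * ℓ ^ (n + 2))) :=
          mul_le_mul_of_nonneg_right e0 (by positivity)
      _ = (10 * (s : ℝ) ^ 2 * (1 + Real.log X)) * ((Q : ℝ) ^ 2 * ℓ ^ (n + 2)) := by ring
      _ ≤ (10 * (s : ℝ) ^ 2 * (1 + Real.log X)) * (27 * X ^ (1 - τ / 2)) :=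
          mul_le_mul_of_nonneg_left e2 (by positivity)
      _ = 270 * (s : ℝ) ^ 2 * (1 + Real.log X) * X ^ (1 - τ / 2) := by ring

theorem result (c : ℝ) (hc : 0 ≤ c) (hc2 : c < 1 / 2) (X : ℝ) (hX : 2 ≤ X) :
    (({p : ℕ | p.Prime ∧ 5 ≤ p ∧ (p : ℝ) ≤ X ∧ Exceptional c p}.ncard : ℕ) : ℝ) ≤
      200000 * X ^ (1 / 2 + c) * Real.log X ^ 3 := by
  obtain ⟨τ, hτ⟩ : ∃ τ, τ = 1 - 2 * c := ⟨_, rfl⟩
  rw [show 1 / 2 + c = 1 - τ / 2 by rw [hτ]; ring]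
  have hτ0 : 0 < τ := by linarith
  have hX0 : (0 : ℝ) < X := by linarith
  have hX1 : (1 : ℝ) ≤ X := by linarith
  set Y := ⌊X⌋₊ with hY
  have hYX : (Y : ℝ) ≤ X := Nat.floor_le hX0.le
  have hY2 : 2 ≤ Y := Nat.le_floor (by exact_mod_cast hX)
  set Q := ⌊X ^ c⌋₊ with hQ
  have hQX : (Q : ℝ) ≤ X ^ c := Nat.floor_le (by positivity)
  have hQ1 : 1 ≤ Q := Nat.le_floor (by exact_mod_cast Real.one_le_rpow hX1 hc)
  set t := Nat.log 2 Y + 1 with htdef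
  have ht1 : X < (2 : ℝ) ^ t := by
    have h2 : Y < 2 ^ (Nat.log 2 Y + 1) := Nat.lt_pow_succ_log_self (by norm_num) _
    have h3 : X < ((2 ^ (Nat.log 2 Y + 1) : ℕ) : ℝ) := (Nat.floor_lt hX0.le).1 h2
    push_cast at h3
    exact h3
  set s := 2 * t + 4 with hsdef
  have hs1 : 1 ≤ s := by omega
  have hs : 16 * X ^ 2 ≤ (2 : ℝ) ^ s := by
    have h4 : (2 : ℝ) ^ s = 16 * ((2 : ℝ) ^ t) ^ 2 := by
      rw [hsdef, pow_add, mul_comm 2 t, pow_mul]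
      ring
    rw [h4]
    have := pow_le_pow_left₀ hX0.le ht1.le 2
    linarith
  have ht2 : 2 ^ (t - 1) ≤ Y := by
    rw [htdef, Nat.add_sub_cancel]
    exact Nat.pow_log_le_self 2 (by omega)
  have hQs : Q + 1 ≤ 2 ^ s := by
    have : ((Q + 1 : ℕ) : ℝ) ≤ ((2 ^ s : ℕ) : ℝ) := by
      push_cast
      have e1 : (Q : ℝ) ≤ X := by
        calc (Q : ℝ) ≤ X ^ c := hQX
          _ ≤ X ^ (1 : ℝ) := Real.rpow_le_rpow_of_exponent_le hX1 (by linarith)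
          _ = X := Real.rpow_one X
      have e2 : X + 1 ≤ 16 * X ^ 2 := by nlinarith
      linarith
    exact_mod_cast this
  obtain ⟨n, κ, t1, t2, t3⟩ := one_ell hc hτ hτ0 hX (Or.inl rfl : (2 = 2 ∨ 2 = 3)) hQ1 hQX hYX hs1 hs
  obtain ⟨n', κ', u1, u2, u3⟩ := one_ell hc hτ hτ0 hX (Or.inr rfl : (3 = 2 ∨ 3 = 3)) hQ1 hQX hYX hs1 hs
  -- the exceptional set
  set A0 := (Icc 2 Q).biUnion bad0 with hA0
  have hmem : ∀ {ℓ n κ p : ℕ}, (ℓ = 2 ∨ ℓ = 3) → Q ^ 3 * (ℓ ^ n) ^ 2 < ℓ ^ (κ + 1) → p.Prime → 5 ≤ p →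
      (p : ℝ) ≤ X → p ∉ A1 ℓ n Y → p ∉ A2 ℓ n κ Q → p ∉ A0 → ∀ {N₁ K m : ℕ}, N₁.Coprime ℓ → 1 ≤ m →
      (m : ℝ) * (N₁ : ℝ) ≤ (p : ℝ) ^ c → ∀ ψ : DirichletCharacter ℂ (N₁ * ℓ ^ K),
      ψ.IsPrimitive → ψ (-1) = (-1) ^ m → (m = 1 → ψ (p : ZMod (N₁ * ℓ ^ K)) ≠ 1) →
      IsUnitAt p (lValue p m ψ) := by
    intro ℓ n κ p hℓ hκ hp h5 hpX c1 c2 c3 N₁ K m hN₁ hm1 hmN ψ hprim hpar h1ψ
    have hℓp : ℓ.Prime := by rcases hℓ with rfl | rfl <;> norm_num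
    have hN0 : 1 ≤ N₁ := by
      rcases Nat.eq_zero_or_pos N₁ with h | h
      · subst h
        rw [Nat.coprime_zero_left] at hN₁
        exact absurd hN₁ hℓp.one_lt.ne'
      · exact h
    have hm1R : (1 : ℝ) ≤ m := by exact_mod_cast hm1
    have hN1R : (1 : ℝ) ≤ N₁ := by exact_mod_cast hN0
    have hmR : (m : ℝ) ≤ (p : ℝ) ^ c := by
      refine le_trans ?_ hmN
      exact le_mul_of_one_le_right (by positivity) hN1R
    have hNR : (N₁ : ℝ) ≤ (p : ℝ) ^ c := by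
      refine le_trans ?_ hmN
      exact le_mul_of_one_le_left (by positivity) hm1R
    have hQ' : m * N₁ ≤ Q := by
      refine Nat.le_floor ?_
      push_cast
      exact hmN.trans (Real.rpow_le_rpow (by positivity) hpX hc)
    have hmQ : m ≤ Q := (Nat.le_mul_of_pos_right _ (by omega)).trans hQ'
    have hNQ : N₁ ≤ Q := (Nat.le_mul_of_pos_left _ (by omega)).trans hQ'
    refine key hp h5 hℓ (n₁ := n) (κ := κ) (Q := Q) ?_ hκ hm1 hQ'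
      (small_m hc2 h5 hm1 hmR) hN₁ (small_N (by linarith) (by omega) hNR) ?_ ?_ ψ hprim hpar h1ψ
    · intro h
      apply c1
      unfold A1
      exact mem_filter.2 ⟨mem_Icc.2 ⟨h5, Nat.le_floor hpX⟩, hp, h⟩
    · intro hK hN h
      apply c2
      unfold A2
      refine mem_biUnion.2 ⟨N₁, mem_Icc.2 ⟨hN0, hNQ⟩, mem_biUnion.2 ⟨(m, K), mem_filter.2 ⟨?_, hN⟩, h⟩⟩
      rw [mem_product, mem_Icc, mem_range]
      refine ⟨⟨hm1, ?_⟩, by simpa using Nat.lt_succ_of_le hK⟩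
      rw [Nat.le_div_iff_mul_le (by omega)]
      exact hQ'
    · intro hm3 h
      exact c3 (mem_biUnion.2 ⟨m, mem_Icc.2 ⟨hm3, hmQ⟩, h⟩)
  have hsub : {p : ℕ | p.Prime ∧ 5 ≤ p ∧ (p : ℝ) ≤ X ∧ Exceptional c p} ⊆
      (((A1 2 n Y ∪ A2 2 n κ Q) ∪ (A1 3 n' Y ∪ A2 3 n' κ' Q) ∪ A0 : Finset ℕ) : Set ℕ) := by
    rintro p ⟨hp, h5, hpX, ℓ, N₁, K, m, hℓ, hN₁, hm1, hmN, ψ, hprim, hpar, h1ψ, hno⟩
    by_contra hcon
    rw [mem_coe, mem_union, mem_union, mem_union, mem_union, not_or, not_or, not_or, not_or] at hcon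
    obtain ⟨⟨⟨c1, c2⟩, c3, c4⟩, c5⟩ := hcon
    rcases hℓ with rfl | rfl
    · exact hno (hmem (Or.inl rfl) t1 hp h5 hpX c1 c2 c5 hN₁ hm1 hmN ψ hprim hpar h1ψ)
    · exact hno (hmem (Or.inr rfl) u1 hp h5 hpX c3 c4 c5 hN₁ hm1 hmN ψ hprim hpar h1ψ)
  have hcard : {p : ℕ | p.Prime ∧ 5 ≤ p ∧ (p : ℝ) ≤ X ∧ Exceptional c p}.ncard ≤
      (A1 2 n Y).card + (A2 2 n κ Q).card + ((A1 3 n' Y).card + (A2 3 n' κ' Q).card) + A0.card := by
    calc _ ≤ (((A1 2 n Y ∪ A2 2 n κ Q) ∪ (A1 3 n' Y ∪ A2 3 n' κ' Q) ∪ A0 : Finset ℕ) : Set ℕ).ncard :=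
          Set.ncard_le_ncard hsub (Finset.finite_toSet _)
      _ = ((A1 2 n Y ∪ A2 2 n κ Q) ∪ (A1 3 n' Y ∪ A2 3 n' κ' Q) ∪ A0).card := Set.ncard_coe_finset _
      _ ≤ ((A1 2 n Y ∪ A2 2 n κ Q) ∪ (A1 3 n' Y ∪ A2 3 n' κ' Q)).card + A0.card := card_union_le _ _
      _ ≤ _ := Nat.add_le_add_right ((card_union_le _ _).trans (Nat.add_le_add (card_union_le _ _)
          (card_union_le _ _))) _
  have c3 : A0.card ≤ 4 * s * Q ^ 2 := card_A0 hQ1 hQs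
  set W := X ^ (1 - τ / 2) with hW
  have hW0 : 0 < W := by positivity
  have r3 : (A0.card : ℝ) ≤ 4 * s * W := by
    have e1 : (A0.card : ℝ) ≤ 4 * s * Q ^ 2 := by exact_mod_cast c3
    refine e1.trans (mul_le_mul_of_nonneg_left ?_ (by positivity))
    calc (Q : ℝ) ^ 2 ≤ (X ^ c) ^ 2 := pow_le_pow_left₀ (by positivity) hQX 2
      _ = X ^ (2 * c) := by
          rw [← Real.rpow_natCast, ← Real.rpow_mul hX0.le]
          congr 1
          push_cast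
          ring
      _ ≤ W := Real.rpow_le_rpow_of_exponent_le hX1 (by linarith)
  -- the logarithm
  have hlog2 : (2 : ℝ) / 3 ≤ Real.log 2 := by
    have := Real.log_two_gt_d9
    linarith
  have hlogX : (2 : ℝ) / 3 ≤ Real.log X := hlog2.trans (Real.log_le_log (by norm_num) hX)
  have hsA : (s : ℝ) ≤ 12 * Real.log X := by
    have e1 : (2 : ℝ) ^ (t - 1) ≤ X := by
      have e2 : ((2 ^ (t - 1) : ℕ) : ℝ) ≤ Y := by exact_mod_cast ht2
      push_cast at e2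
      exact e2.trans hYX
    have e2 := Real.log_le_log (by positivity) e1
    rw [Real.log_pow] at e2
    have e4 : ((t - 1 : ℕ) : ℝ) * (2 / 3) ≤ Real.log X := by
      calc ((t - 1 : ℕ) : ℝ) * (2 / 3) ≤ ((t - 1 : ℕ) : ℝ) * Real.log 2 :=
            mul_le_mul_of_nonneg_left hlog2 (by positivity)
        _ ≤ Real.log X := e2
    have e5 : ((t - 1 : ℕ) : ℝ) = t - 1 := by
      rw [Nat.cast_sub (by omega)]
      norm_num
    rw [e5] at e4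
    have e6 : (s : ℝ) = 2 * t + 4 := by
      rw [hsdef]
      push_cast
      ring
    rw [e6]
    linarith
  have hs0 : (0 : ℝ) ≤ s := by positivity
  set L := Real.log X with hL
  have hL0 : 0 ≤ L := by linarith
  have hsum : (({p : ℕ | p.Prime ∧ 5 ≤ p ∧ (p : ℝ) ≤ X ∧ Exceptional c p}.ncard : ℕ) : ℝ) ≤
      (8 + 540 * (s : ℝ) ^ 2 * (1 + L) + 4 * s) * W := by
    have e1 : (({p : ℕ | p.Prime ∧ 5 ≤ p ∧ (p : ℝ) ≤ X ∧ Exceptional c p}.ncard : ℕ) : ℝ) ≤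
        (A1 2 n Y).card + (A2 2 n κ Q).card + ((A1 3 n' Y).card + (A2 3 n' κ' Q).card) + A0.card := by
      exact_mod_cast hcard
    calc _ ≤ ((A1 2 n Y).card : ℝ) + (A2 2 n κ Q).card + ((A1 3 n' Y).card + (A2 3 n' κ' Q).card) +
          A0.card := e1
      _ ≤ 4 * W + 270 * (s : ℝ) ^ 2 * (1 + L) * W + (4 * W + 270 * (s : ℝ) ^ 2 * (1 + L) * W) + 4 * s * W := by
          linarith
      _ = _ := by ring
  have hL3 : 8 ≤ 27 * L ^ 3 := by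
    have := pow_le_pow_left₀ (by norm_num : (0 : ℝ) ≤ 2 / 3) hlogX 3
    norm_num at this
    linarith
  have hL2 : L ≤ 9 / 4 * L ^ 3 := by
    have h1 := pow_le_pow_left₀ (by norm_num : (0 : ℝ) ≤ 2 / 3) hlogX 2
    have h2 : L * 1 ≤ L * (9 / 4 * L ^ 2) := by
      refine mul_le_mul_of_nonneg_left ?_ hL0
      norm_num at h1
      linarith
    calc L = L * 1 := (mul_one _).symm
      _ ≤ L * (9 / 4 * L ^ 2) := h2
      _ = 9 / 4 * L ^ 3 := by ring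
  have hq : 8 + 540 * (s : ℝ) ^ 2 * (1 + L) + 4 * s ≤ 200000 * L ^ 3 := by
    have e2 : (s : ℝ) ^ 2 ≤ (12 * L) ^ 2 := pow_le_pow_left₀ hs0 hsA 2
    have e3 : 1 + L ≤ 5 / 2 * L := by linarith
    have e4 : 540 * (s : ℝ) ^ 2 * (1 + L) ≤ 540 * (12 * L) ^ 2 * (5 / 2 * L) := by
      refine mul_le_mul (mul_le_mul_of_nonneg_left e2 (by norm_num)) e3 (by linarith) (by positivity)
    have e5 : 540 * (12 * L) ^ 2 * (5 / 2 * L) = 194400 * L ^ 3 := by ring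
    rw [e5] at e4
    have e6 : 4 * (s : ℝ) ≤ 108 * L ^ 3 := by linarith
    have e7 : 0 ≤ L ^ 3 := by positivity
    linarith
  calc _ ≤ (8 + 540 * (s : ℝ) ^ 2 * (1 + L) + 4 * s) * W := hsum
    _ ≤ (200000 * L ^ 3) * W := mul_le_mul_of_nonneg_right hq hW0.le
    _ = 200000 * W * L ^ 3 := by ring

end Pool.Agent.Results.MP_c2a07f_nt.AlmostAllPrimes
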