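import Pool.Agent.Y18.GX.Small

/-!
# Greenberg's conjecture for `p = 5` and all `N = 3^K`

For `p = 5` and `N = 3^K` (`K ≥ 0`) the even characters `θ` modulo `5 N` are the `ψ ω^m` with a primitive character `ψ`
modulo `3^k`, `k ≤ K`, `1 ≤ m ≤ 4`, `ψ(-1) = (-1)^m`. We show that for all of them, except the trivial character
(`k = 0`, `m = 4`), the value

  `L_5(1 - m, θ) = - (1 - ψ(5) 5^(m-1)) B_{m,ψ} / m`

of the `5`-adic `L`-function is a unit at all places above `5`. So the `5`-adic `L`-functions are units, and `X_θ = 0`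
for all `θ ≠ 1` (known: `X_θ` is a quotient of a module with this characteristic ideal and without finite submodules;
the support statement in the problem file). For `θ = 1` one has `X_θ = 0` as the class number of `ℚ` is one. Hence
`X⁺ = 0` for `p = 5` and all `N = 3^K`.

Proof. The sums over the classes modulo `3^(K-1)` are polynomials of degree `m - 1` in the class, see
`LargeConductors`; this settles `m ≤ 3^(K-2)`. The pairs `(K, m)` equal to `(2,2)`, `(2,3)`, `(2,4)`, `(3,4)` are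
settled by an explicit calculation in the field with `25` elements, and `K ≤ 1` directly.
-/

set_option autoImplicit false

namespace Pool.Agent.Results.MP_c2a07f_nt.FiveAndPowersOfThree

/-- The generalized Bernoulli number `B_{m,ψ} = N^(m-1) ∑_{a=1}^N ψ(a) B_m(a/N)`. -/
noncomputable def genBernoulli (m : ℕ) {N : ℕ} (ψ : DirichletCharacter ℂ N) : ℂ :=
  (N : ℂ) ^ (m - 1) * ∑ a ∈ Finset.Icc 1 N, ψ (a : ZMod N) *
    (((Polynomial.bernoulli m).eval ((a : ℚ) / N) : ℚ) : ℂ)

/-- `(1 - ψ(p) p^(m-1)) B_{m,ψ} / m`, the value at `1 - m` of the `L`-function of `ψ` without Euler factor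
at `p` (up to the sign). -/
noncomputable def lValue (p m : ℕ) {N : ℕ} (ψ : DirichletCharacter ℂ N) : ℂ :=
  (1 - ψ (p : ZMod N) * (p : ℂ) ^ (m - 1)) * genBernoulli m ψ / m

/-- `z` is a unit at all places above `p`: it is not zero, and for some integer `c` prime to `p` the numbers
`c z` and `c / z` are algebraic integers. -/
def IsUnitAt (p : ℕ) (z : ℂ) : Prop :=
  z ≠ 0 ∧ ∃ c : ℤ, IsCoprime (p : ℤ) c ∧ IsIntegral ℤ ((c : ℂ) * z) ∧ IsIntegral ℤ ((c : ℂ) * z⁻¹)

open Finset Pool.Agent.Y18.GX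

lemma sum_Icc {N : ℕ} (f : ℕ → ℂ) (h0 : f 0 = 0) (hN : f N = 0) :
    ∑ a ∈ Icc 1 N, f a = ∑ a ∈ range N, f a := by
  rcases Nat.eq_zero_or_pos N with h | h
  · subst h
    simp
  · have h1 : ∑ a ∈ range (N + 1), f a = ∑ a ∈ range N, f a + f N := Finset.sum_range_succ f N
    have h2 : ∑ a ∈ range (N + 1), f a = ∑ a ∈ Icc 1 N, f a + f 0 := by
      rw [Finset.sum_range_succ']
      congr 1
      refine Finset.sum_bij (fun a _ => a + 1) ?_ ?_ ?_ (fun _ _ => rfl)
      · intro a ha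
        have := mem_range.1 ha
        rw [mem_Icc]
        omega
      · intro a _ b _ hab
        omega
      · intro b hb
        rw [mem_Icc] at hb
        exact ⟨b - 1, mem_range.2 (by omega), by omega⟩
    rw [h1, hN, h0, add_zero, add_zero] at h2
    exact h2.symm

lemma lValue_eq {p m N : ℕ} (hN1 : N ≠ 1) (ψ : DirichletCharacter ℂ N) :
    lValue p m ψ = (1 - ψ (p : ZMod N) * (p : ℂ) ^ (m - 1)) * ((N : ℂ) ^ (m - 1) *
      ∑ a ∈ range N, ψ (a : ZMod N) * (((Polynomial.bernoulli m).eval ((a : ℚ) / N) : ℚ) : ℂ)) / m := by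
  unfold lValue genBernoulli
  rw [sum_Icc]
  · rw [Nat.cast_zero, DirichletCharacter.map_zero' ψ hN1, zero_mul]
  · rw [ZMod.natCast_self, DirichletCharacter.map_zero' ψ hN1, zero_mul]

lemma part_one {p : ℕ} (hp : p.Prime) (h5 : 5 ≤ p) {ℓ : ℕ} (hℓ : ℓ = 2 ∨ ℓ = 3) {N₁ g n : ℕ}
    (hN₁ : N₁.Coprime ℓ) (hpN : ¬ p ∣ N₁) (hg : Even g) (hφ : N₁.totient ∣ p ^ g - 1)
    (hn : ℓ ^ n ∣ p ^ g - 1) (hn' : ¬ ℓ ^ (n + 1) ∣ p ^ g - 1) {K m : ℕ} (hm1 : 1 ≤ m) (hmp : m ≤ p - 1)
    (hsize : m * N₁ * ℓ ^ (2 * n) ≤ ℓ ^ K) (ψ : DirichletCharacter ℂ (N₁ * ℓ ^ K))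
    (hc : ℓ ^ K ∣ ψ.conductor) (hpar : ψ (-1) = (-1) ^ m) : IsUnitAt p (lValue p m ψ) := by
  have hℓp : ℓ.Prime := by rcases hℓ with rfl | rfl <;> norm_num
  have hN0 : N₁ ≠ 0 := by
    rintro rfl
    exact hpN (dvd_zero _)
  have hpodd : Odd p := hp.odd_of_ne_two (by omega)
  -- `p ^ g` modulo `8` and modulo `3`
  obtain ⟨g', hg'⟩ := hg
  have hpg : p ^ g = (p ^ 2) ^ g' := by
    rw [hg', ← pow_mul]
    congr 1
    ring
  have h8 : p ^ g % 8 = 1 := by
    rw [hpg, Nat.pow_mod]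
    have h1 : p ^ 2 % 8 = 1 := by
      have h2 : p % 8 = 1 ∨ p % 8 = 3 ∨ p % 8 = 5 ∨ p % 8 = 7 := by
        obtain ⟨w, hw⟩ := hpodd
        omega
      rw [Nat.pow_mod]
      rcases h2 with h2 | h2 | h2 | h2 <;> rw [h2]
    rw [h1, one_pow]
    rfl
  have h3 : p ^ g % 3 = 1 := by
    rw [hpg, Nat.pow_mod]
    have h1 : p ^ 2 % 3 = 1 := by
      have h2 : p % 3 = 1 ∨ p % 3 = 2 := by
        have : ¬ 3 ∣ p := fun h => by
          have := (Nat.prime_dvd_prime_iff_eq Nat.prime_three hp).1 h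
          omega
        omega
      rw [Nat.pow_mod]
      rcases h2 with h2 | h2 <;> rw [h2]
    rw [h1, one_pow]
    rfl
  have hA : Adm ℓ (p ^ g) := by
    rcases hℓ with rfl | rfl
    · exact Or.inr ⟨rfl, by omega⟩
    · exact Or.inl ⟨rfl, h3⟩
  have hn1 : 1 ≤ n ∧ 3 ≤ ℓ ^ n := by
    rcases hℓ with rfl | rfl
    · have h4 : ¬ 2 ^ (n + 1) ∣ 8 := fun h => hn' (h.trans (by omega))
      have h6 : 3 ≤ n := by
        by_contra hcon
        exact h4 (pow_dvd_pow 2 (show n + 1 ≤ 3 by omega))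
      refine ⟨by omega, ?_⟩
      calc 3 ≤ 2 ^ 3 := by norm_num
        _ ≤ 2 ^ n := Nat.pow_le_pow_right (by norm_num) h6
    · have h6 : 1 ≤ n := by
        by_contra hcon
        have : n = 0 := by omega
        subst this
        apply hn'
        rw [zero_add, pow_one]
        omega
      refine ⟨h6, ?_⟩
      calc 3 = 3 ^ 1 := by norm_num
        _ ≤ 3 ^ n := Nat.pow_le_pow_right (by norm_num) h6
  obtain ⟨u, hu⟩ := hn
  have huc : u.Coprime ℓ := by
    rw [Nat.coprime_comm, Nat.Prime.coprime_iff_not_dvd hℓp]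
    rintro ⟨w, hw⟩
    apply hn'
    rw [hu, hw, pow_succ, ← mul_assoc]
    exact dvd_mul_right _ _
  have hnK : 2 * n ≤ K := by
    have h6 : ℓ ^ (2 * n) ≤ ℓ ^ K := by
      calc ℓ ^ (2 * n) = 1 * ℓ ^ (2 * n) := (one_mul _).symm
        _ ≤ m * N₁ * ℓ ^ (2 * n) := Nat.mul_le_mul_right _ (Nat.mul_pos (by omega) (Nat.pos_of_ne_zero hN0))
        _ ≤ ℓ ^ K := hsize
    exact (Nat.pow_le_pow_iff_right hℓp.one_lt).1 h6
  have hcop : N₁.Coprime (ℓ ^ K) := hN₁.pow_right K
  have hpℓ : p ≠ ℓ := by rcases hℓ with rfl | rfl <;> omega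
  have hprim := snd_prim hcop hℓp (by omega) hN0 ψ hc
  have hψ₁ : ∀ a, fst hcop ψ a ^ p ^ g = fst hcop ψ a := by
    intro a
    by_cases ha : IsUnit a
    · obtain ⟨U, rfl⟩ := ha
      obtain ⟨w, hw⟩ := hφ
      have h1 : p ^ g = N₁.totient * w + 1 := by
        have : 1 ≤ p ^ g := Nat.one_le_pow _ _ hp.pos
        omega
      rw [h1, pow_succ, pow_mul, ← map_pow, ← Units.val_pow_eq_pow_val, ZMod.pow_totient, Units.val_one, map_one,
        one_pow, one_mul]
    · rw [MulChar.map_nonunit _ ha, zero_pow]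
      exact (Nat.pos_of_ne_zero (pow_ne_zero _ hp.ne_zero)).ne'
  have hN1 : N₁ * ℓ ^ K ≠ 1 := by
    intro h
    have h6 : ℓ ^ K = 1 := Nat.dvd_one.1 (h ▸ dvd_mul_left (ℓ ^ K) N₁)
    have := Nat.one_lt_pow (n := K) (by omega) hℓp.one_lt
    omega
  have hψ1 : ψ ≠ 1 := by
    have : NeZero (N₁ * ℓ ^ K) := ⟨mul_ne_zero hN0 (pow_ne_zero _ hℓp.ne_zero)⟩
    intro h
    rw [h, DirichletCharacter.conductor_one] at hc
    have := Nat.dvd_one.1 hc
    exact (Nat.one_lt_pow (by omega) hℓp.one_lt).ne' this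
  have hsum : ∑ a ∈ range (N₁ * ℓ ^ K), fst hcop ψ (a : ZMod N₁) * snd hcop ψ (a : ZMod (ℓ ^ K)) = 0 := by
    rw [← sum_char (mul_ne_zero hN0 (pow_ne_zero _ hℓp.ne_zero)) ψ hψ1]
    exact Finset.sum_congr rfl fun a _ => (dec_nat hcop ψ a).symm
  have key := unit_main hp (fst hcop ψ) (snd hcop ψ) (by omega) hA hn1.1 hnK hn1.2 hu huc hψ₁ hprim hN₁ hpN hpℓ
    (by rw [← dec_neg, hpar]) hm1 (by omega) hsize hsum
  simp only [← dec_nat] at key
  rw [lValue_eq hN1]
  exact key

lemma unit_rat {p : ℕ} (a b : ℤ) (ha : a ≠ 0) (hb : b ≠ 0) (hpa : IsCoprime (p : ℤ) a) (hpb : IsCoprime (p : ℤ) b)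
    {z : ℂ} (hz : z = a / b) : IsUnitAt p z := by
  have ha' : (a : ℂ) ≠ 0 := by exact_mod_cast ha
  have hb' : (b : ℂ) ≠ 0 := by exact_mod_cast hb
  refine ⟨by rw [hz]; exact div_ne_zero ha' hb', a * b, hpa.mul_right hpb, ?_, ?_⟩
  · have : ((a * b : ℤ) : ℂ) * z = ((a ^ 2 : ℤ) : ℂ) := by
      rw [hz]
      push_cast
      field_simp
    rw [this]
    exact isIntegral_algebraMap (x := a ^ 2)
  · have : ((a * b : ℤ) : ℂ) * z⁻¹ = ((b ^ 2 : ℤ) : ℂ) := by
      rw [hz]
      push_cast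
      field_simp
    rw [this]
    exact isIntegral_algebraMap (x := b ^ 2)

lemma part_big (K m N : ℕ) (hN : N = 1 * 3 ^ K) (hK : 2 ≤ K) (hm1 : 1 ≤ m) (hm4 : m ≤ 4)
    (ψ : DirichletCharacter ℂ N) (hc : 3 ^ K ∣ ψ.conductor) (hpar : ψ (-1) = (-1) ^ m) :
    IsUnitAt 5 (lValue 5 m ψ) := by
  subst hN
  by_cases hs : (K = 2 ∧ (m = 2 ∨ m = 3 ∨ m = 4)) ∨ (K = 3 ∧ m = 4)
  · have hp5 : Nat.Prime 5 := by norm_num
    have hcop : Nat.Coprime 1 (3 ^ K) := Nat.coprime_one_left _
    have hprim := snd_prim hcop Nat.prime_three hK one_ne_zero ψ hc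
    have hN1 : 1 * 3 ^ K ≠ 1 := by
      rw [one_mul]
      exact (Nat.one_lt_pow (by omega) (by norm_num)).ne'
    have hψ1 : ψ ≠ 1 := by
      have : NeZero (1 * 3 ^ K) := ⟨by positivity⟩
      intro h
      rw [h, DirichletCharacter.conductor_one] at hc
      have := Nat.dvd_one.1 hc
      exact (Nat.one_lt_pow (by omega) (by norm_num : 1 < 3)).ne' this
    have hfst : ∀ a, fst hcop ψ a = 1 := fun a => by rw [Subsingleton.elim (α := ZMod 1) a 1, map_one]
    have hsum : ∑ a ∈ range (1 * 3 ^ K), fst hcop ψ (a : ZMod 1) * snd hcop ψ (a : ZMod (3 ^ K)) = 0 := by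
      rw [← sum_char (by positivity) ψ hψ1]
      exact Finset.sum_congr rfl fun a _ => (dec_nat hcop ψ a).symm
    have key := unit_gen hp5 (g := 2) (m := m) (fst hcop ψ) (snd hcop ψ) Nat.prime_three hK
      (fun a => by rw [hfst, one_pow]) hprim (by norm_num) (by norm_num)
      (by rw [← dec_neg, hpar]) hm1 (by omega)
      (fun k _ _ χ₁ χ₂ _ h2 h3 => ⟨small hs χ₁ χ₂ h2 h3, fun h => by omega⟩) hsum
    simp only [← dec_nat] at key
    rw [lValue_eq hN1]
    exact key
  · refine part_one (p := 5) (by norm_num) le_rfl (Or.inr rfl) (N₁ := 1) (g := 2) (n := 1) (by norm_num)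
      (by norm_num) (by decide) (by norm_num) (by norm_num) (by norm_num) hm1 (by omega) ?_ ψ hc hpar
    have h1 : m * 1 * 3 ^ (2 * 1) = m * 9 := by norm_num
    rw [h1]
    rcases Nat.lt_or_ge K 4 with h2 | h2
    · have h3 : K = 2 ∨ K = 3 := by omega
      rcases h3 with rfl | rfl
      · have : m = 1 := by omega
        subst this
        norm_num
      · have : m ≤ 3 := by omega
        norm_num
        omega
    · calc m * 9 ≤ 4 * 9 := by omega
        _ ≤ 3 ^ 4 := by norm_num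
        _ ≤ 3 ^ K := Nat.pow_le_pow_right (by norm_num) h2

lemma part_three (K m : ℕ) (hm1 : 1 ≤ m) (hm4 : m ≤ 4) (hK0 : K = 0 → m ≠ 4)
    (ψ : DirichletCharacter ℂ (3 ^ K)) (hprim : ψ.IsPrimitive) (hpar : ψ (-1) = (-1) ^ m) :
    IsUnitAt 5 (lValue 5 m ψ) := by
  rcases Nat.lt_or_ge K 2 with hK | hK
  · rcases Nat.lt_or_ge K 1 with hK' | hK'
    · -- `K = 0`
      have h0 : K = 0 := by omega
      subst h0
      have hψ : ∀ x, ψ x = 1 := fun x => by
        have : x = 1 := Subsingleton.elim (α := ZMod 1) x 1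
        rw [this, map_one]
      rw [hψ] at hpar
      have hm : m = 2 := by
        interval_cases m
        · norm_num at hpar
        · rfl
        · norm_num at hpar
        · exact absurd rfl (hK0 rfl)
      subst hm
      refine unit_rat (-1) 3 (by norm_num) (by norm_num) (by norm_num) (by norm_num) ?_
      have h2 : (Polynomial.bernoulli 2).eval (1 : ℚ) = 1 / 6 := by
        rw [Polynomial.bernoulli_eval_one]
        exact bernoulli'_two
      unfold lValue genBernoulli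
      simp only [hψ, pow_zero, Icc_self, sum_singleton, Nat.cast_one, div_one, h2]
      norm_num
    · -- `K = 1`
      have h1 : K = 1 := by omega
      subst h1
      have hψ1 : ψ ≠ 1 := by
        intro h
        rw [h, DirichletCharacter.isPrimitive_def, DirichletCharacter.conductor_one] at hprim
        norm_num at hprim
      have hψ2 : ψ 2 = -1 := by
        have h2 : ψ 2 ^ 2 = 1 := by
          rw [← map_pow]
          have : (2 : ZMod (3 ^ 1)) ^ 2 = 1 := by decide
          rw [this, map_one]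
        have h2' : (ψ 2 - 1) * (ψ 2 + 1) = 0 := by linear_combination h2
        rcases mul_eq_zero.1 h2' with h3 | h3
        · rw [sub_eq_zero] at h3
          exfalso
          apply hψ1
          ext U
          have h4 : ∀ x : ZMod (3 ^ 1), IsUnit x → x = 1 ∨ x = 2 := by decide
          rcases h4 U U.isUnit with h5 | h5
          · rw [h5, map_one, MulChar.one_apply isUnit_one]
          · rw [h5, h3]
            have : IsUnit (2 : ZMod (3 ^ 1)) := h5 ▸ U.isUnit
            rw [MulChar.one_apply this]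
        · exact eq_neg_of_add_eq_zero_left h3
      have hneg : (-1 : ZMod (3 ^ 1)) = 2 := by decide
      rw [hneg, hψ2] at hpar
      have h5 : ((5 : ℕ) : ZMod (3 ^ 1)) = 2 := by decide
      have hm : m = 1 ∨ m = 3 := by
        interval_cases m
        · exact Or.inl rfl
        · norm_num at hpar
        · exact Or.inr rfl
        · norm_num at hpar
      have h33 : (3 : ℕ) ^ 1 ≠ 1 := by norm_num
      rw [lValue_eq h33, h5, hψ2]
      have h0 : ψ ((0 : ℕ) : ZMod (3 ^ 1)) = 0 := by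
        rw [Nat.cast_zero]
        exact DirichletCharacter.map_zero' ψ h33
      have h1 : ψ ((1 : ℕ) : ZMod (3 ^ 1)) = 1 := by rw [Nat.cast_one, map_one]
      have h2 : ψ ((2 : ℕ) : ZMod (3 ^ 1)) = -1 := by
        have : ((2 : ℕ) : ZMod (3 ^ 1)) = 2 := by decide
        rw [this, hψ2]
      have hr : range (3 ^ 1) = {0, 1, 2} := by decide
      rw [hr, Finset.sum_insert (by decide), Finset.sum_insert (by decide), Finset.sum_singleton, h0, h1, h2]
      rcases hm with rfl | rfl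
      · refine unit_rat (-2) 3 (by norm_num) (by norm_num) (by norm_num) (by norm_num) ?_
        simp only [Polynomial.bernoulli_one, Polynomial.eval_sub, Polynomial.eval_X, Polynomial.eval_C]
        push_cast
        norm_num
      · refine unit_rat 52 9 (by norm_num) (by norm_num) (by norm_num) (by norm_num) ?_
        have e : ∀ x : ℚ, (Polynomial.bernoulli 3).eval x = x ^ 3 - 3 / 2 * x ^ 2 + 1 / 2 * x := by
          intro x
          rw [Polynomial.bernoulli]
          simp [Finset.sum_range_succ, bernoulli_three', Nat.choose]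
          ring
        rw [e, e, e]
        push_cast
        norm_num
  · have hN : 3 ^ K = 1 * 3 ^ K := (one_mul _).symm
    exact part_big K m (3 ^ K) hN hK hm1 hm4 ψ (by rw [DirichletCharacter.isPrimitive_def] at hprim; rw [hprim]) hpar

theorem result (K m : ℕ) (hm1 : 1 ≤ m) (hm4 : m ≤ 4) (hK0 : K = 0 → m ≠ 4)
    (ψ : DirichletCharacter ℂ (3 ^ K)) (hprim : ψ.IsPrimitive) (hpar : ψ (-1) = (-1) ^ m) :
    IsUnitAt 5 (lValue 5 m ψ) :=
  part_three K m hm1 hm4 hK0 ψ hprim hpar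

end Pool.Agent.Results.MP_c2a07f_nt.FiveAndPowersOfThree
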