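import Pool.Agent.Y18.GX.Dec

/-!
# Greenberg's conjecture: the components of `X⁺` of large conductor at `2` or `3` vanish

Let `p ≥ 5` be a prime, `ℓ = 2` or `3`, `N₁` prime to `pℓ` with `p ∤ φ(N₁)`, and `N = N₁ ℓ^K`. For an even character
`θ = ψ ω^m` modulo `N p` (`ψ` a character modulo `N`, `1 ≤ m ≤ p - 1`) the `θ`-component of the Galois group of the
maximal abelian `p`-extension of `ℚ(ζ_{Np^∞})` unramified outside `p` vanishes, and with it its quotient `X_θ`, if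
the value

  `L_p(1 - m, θ) = - (1 - ψ(p) p^(m-1)) B_{m,ψ} / m`

of the Kubota-Leopoldt `p`-adic `L`-function is a unit. Washington proved that for fixed `N₁`, `p` this holds if `K`
is large and the `ℓ`-part of the conductor of `ψ` is `ℓ^K` (for all but finitely many `ψ`). We prove this with an
explicit bound: it holds if `m N₁ ℓ^(2n) ≤ ℓ^K`, where `ℓ^n` is the exact power of `ℓ` dividing `p^g - 1`, for any even
`g` with `φ(N₁) ∣ p^g - 1`. For `N₁ = 1`, `ℓ = 3` and `p ≠ ±1` modulo `9` the condition is `m ≤ 3^(K-2)`. So `X_θ = 0` for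
all even characters `θ` modulo `N p` such that the `ℓ`-part of the conductor is at least `N₁ p ℓ^(2n)`, for all `K` at once.

The proof is elementary. If the value is not a unit, we get a relation `∑_a ψ(a) f(a/N) = 0` over a finite field with a
polynomial `f` of degree `m` with coefficients in the prime field. The conjugates of the relation under Frobenius give
relations for the sums over the classes `b` modulo `ℓ^(K-n)`, which are polynomials in `b` of degree at most `m - 1`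
with a leading coefficient which is not always zero; but they vanish for `m` values of `b`.
-/

set_option autoImplicit false

namespace Pool.Agent.Results.MP_c2a07f_nt.LargeConductors

/-- The generalized Bernoulli number `B_{m,ψ} = N^(m-1) ∑_{a=1}^N ψ(a) B_m(a/N)`. -/
noncomputable def genBernoulli (m : ℕ) {N : ℕ} (ψ : DirichletCharacter ℂ N) : ℂ :=
  (N : ℂ) ^ (m - 1) * ∑ a ∈ Finset.Icc 1 N, ψ (a : ZMod N) *
    (((Polynomial.bernoulli m).eval ((a : ℚ) / N) : ℚ) : ℂ)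

/-- `(1 - ψ(p) p^(m-1)) B_{m,ψ} / m`, the value at `1 - m` of the `L`-function of `ψ` without Euler factor
at `p` (up to the sign). -/
noncomputable def lValue (p m : ℕ) {N : ℕ} (ψ : DirichletCharacter ℂ N) : ℂ :=
  (1 - ψ (p : ZMod N) * (p : ℂ) ^ (m - 1)) * genBernoulli m ψ / m

/-- `z` is a unit at all places above `p`: it is not zero, and for some integer `c` prime to `p` the numbers
`c z` and `c / z` are algebraic integers. -/
def IsUnitAt (p : ℕ) (z : ℂ) : Prop :=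
  z ≠ 0 ∧ ∃ c : ℤ, IsCoprime (p : ℤ) c ∧ IsIntegral ℤ ((c : ℂ) * z) ∧ IsIntegral ℤ ((c : ℂ) * z⁻¹)

open Finset Pool.Agent.Y18.GX

lemma sum_Icc {N : ℕ} (f : ℕ → ℂ) (h0 : f 0 = 0) (hN : f N = 0) :
    ∑ a ∈ Icc 1 N, f a = ∑ a ∈ range N, f a := by
  rcases Nat.eq_zero_or_pos N with h | h
  · subst h
    simp
  · have h1 : ∑ a ∈ range (N + 1), f a = ∑ a ∈ range N, f a + f N := Finset.sum_range_succ f N
    have h2 : ∑ a ∈ range (N + 1), f a = ∑ a ∈ Icc 1 N, f a + f 0 := by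
      rw [Finset.sum_range_succ']
      congr 1
      refine Finset.sum_bij (fun a _ => a + 1) ?_ ?_ ?_ (fun _ _ => rfl)
      · intro a ha
        have := mem_range.1 ha
        rw [mem_Icc]
        omega
      · intro a _ b _ hab
        omega
      · intro b hb
        rw [mem_Icc] at hb
        exact ⟨b - 1, mem_range.2 (by omega), by omega⟩
    rw [h1, hN, h0, add_zero, add_zero] at h2
    exact h2.symm

lemma lValue_eq {p m N : ℕ} (hN1 : N ≠ 1) (ψ : DirichletCharacter ℂ N) :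
    lValue p m ψ = (1 - ψ (p : ZMod N) * (p : ℂ) ^ (m - 1)) * ((N : ℂ) ^ (m - 1) *
      ∑ a ∈ range N, ψ (a : ZMod N) * (((Polynomial.bernoulli m).eval ((a : ℚ) / N) : ℚ) : ℂ)) / m := by
  unfold lValue genBernoulli
  rw [sum_Icc]
  · rw [Nat.cast_zero, DirichletCharacter.map_zero' ψ hN1, zero_mul]
  · rw [ZMod.natCast_self, DirichletCharacter.map_zero' ψ hN1, zero_mul]

lemma part_one {p : ℕ} (hp : p.Prime) (h5 : 5 ≤ p) {ℓ : ℕ} (hℓ : ℓ = 2 ∨ ℓ = 3) {N₁ g n : ℕ}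
    (hN₁ : N₁.Coprime ℓ) (hpN : ¬ p ∣ N₁) (hg : Even g) (hφ : N₁.totient ∣ p ^ g - 1)
    (hn : ℓ ^ n ∣ p ^ g - 1) (hn' : ¬ ℓ ^ (n + 1) ∣ p ^ g - 1) {K m : ℕ} (hm1 : 1 ≤ m) (hmp : m ≤ p - 1)
    (hsize : m * N₁ * ℓ ^ (2 * n) ≤ ℓ ^ K) (ψ : DirichletCharacter ℂ (N₁ * ℓ ^ K))
    (hc : ℓ ^ K ∣ ψ.conductor) (hpar : ψ (-1) = (-1) ^ m) : IsUnitAt p (lValue p m ψ) := by
  have hℓp : ℓ.Prime := by rcases hℓ with rfl | rfl <;> norm_num
  have hN0 : N₁ ≠ 0 := by
    rintro rfl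
    exact hpN (dvd_zero _)
  have hpodd : Odd p := hp.odd_of_ne_two (by omega)
  -- `p ^ g` modulo `8` and modulo `3`
  obtain ⟨g', hg'⟩ := hg
  have hpg : p ^ g = (p ^ 2) ^ g' := by
    rw [hg', ← pow_mul]
    congr 1
    ring
  have h8 : p ^ g % 8 = 1 := by
    rw [hpg, Nat.pow_mod]
    have h1 : p ^ 2 % 8 = 1 := by
      have h2 : p % 8 = 1 ∨ p % 8 = 3 ∨ p % 8 = 5 ∨ p % 8 = 7 := by
        obtain ⟨w, hw⟩ := hpodd
        omega
      rw [Nat.pow_mod]
      rcases h2 with h2 | h2 | h2 | h2 <;> rw [h2]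
    rw [h1, one_pow]
    rfl
  have h3 : p ^ g % 3 = 1 := by
    rw [hpg, Nat.pow_mod]
    have h1 : p ^ 2 % 3 = 1 := by
      have h2 : p % 3 = 1 ∨ p % 3 = 2 := by
        have : ¬ 3 ∣ p := fun h => by
          have := (Nat.prime_dvd_prime_iff_eq Nat.prime_three hp).1 h
          omega
        omega
      rw [Nat.pow_mod]
      rcases h2 with h2 | h2 <;> rw [h2]
    rw [h1, one_pow]
    rfl
  have hA : Adm ℓ (p ^ g) := by
    rcases hℓ with rfl | rfl
    · exact Or.inr ⟨rfl, by omega⟩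
    · exact Or.inl ⟨rfl, h3⟩
  have hn1 : 1 ≤ n ∧ 3 ≤ ℓ ^ n := by
    rcases hℓ with rfl | rfl
    · have h4 : ¬ 2 ^ (n + 1) ∣ 8 := fun h => hn' (h.trans (by omega))
      have h6 : 3 ≤ n := by
        by_contra hcon
        exact h4 (pow_dvd_pow 2 (show n + 1 ≤ 3 by omega))
      refine ⟨by omega, ?_⟩
      calc 3 ≤ 2 ^ 3 := by norm_num
        _ ≤ 2 ^ n := Nat.pow_le_pow_right (by norm_num) h6
    · have h6 : 1 ≤ n := by
        by_contra hcon
        have : n = 0 := by omega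
        subst this
        apply hn'
        rw [zero_add, pow_one]
        omega
      refine ⟨h6, ?_⟩
      calc 3 = 3 ^ 1 := by norm_num
        _ ≤ 3 ^ n := Nat.pow_le_pow_right (by norm_num) h6
  obtain ⟨u, hu⟩ := hn
  have huc : u.Coprime ℓ := by
    rw [Nat.coprime_comm, Nat.Prime.coprime_iff_not_dvd hℓp]
    rintro ⟨w, hw⟩
    apply hn'
    rw [hu, hw, pow_succ, ← mul_assoc]
    exact dvd_mul_right _ _
  have hnK : 2 * n ≤ K := by
    have h6 : ℓ ^ (2 * n) ≤ ℓ ^ K := by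
      calc ℓ ^ (2 * n) = 1 * ℓ ^ (2 * n) := (one_mul _).symm
        _ ≤ m * N₁ * ℓ ^ (2 * n) := Nat.mul_le_mul_right _ (Nat.mul_pos (by omega) (Nat.pos_of_ne_zero hN0))
        _ ≤ ℓ ^ K := hsize
    exact (Nat.pow_le_pow_iff_right hℓp.one_lt).1 h6
  have hcop : N₁.Coprime (ℓ ^ K) := hN₁.pow_right K
  have hpℓ : p ≠ ℓ := by rcases hℓ with rfl | rfl <;> omega
  have hprim := snd_prim hcop hℓp (by omega) hN0 ψ hc
  have hψ₁ : ∀ a, fst hcop ψ a ^ p ^ g = fst hcop ψ a := by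
    intro a
    by_cases ha : IsUnit a
    · obtain ⟨U, rfl⟩ := ha
      obtain ⟨w, hw⟩ := hφ
      have h1 : p ^ g = N₁.totient * w + 1 := by
        have : 1 ≤ p ^ g := Nat.one_le_pow _ _ hp.pos
        omega
      rw [h1, pow_succ, pow_mul, ← map_pow, ← Units.val_pow_eq_pow_val, ZMod.pow_totient, Units.val_one, map_one,
        one_pow, one_mul]
    · rw [MulChar.map_nonunit _ ha, zero_pow]
      exact (Nat.pos_of_ne_zero (pow_ne_zero _ hp.ne_zero)).ne'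
  have hN1 : N₁ * ℓ ^ K ≠ 1 := by
    intro h
    have h6 : ℓ ^ K = 1 := Nat.dvd_one.1 (h ▸ dvd_mul_left (ℓ ^ K) N₁)
    have := Nat.one_lt_pow (n := K) (by omega) hℓp.one_lt
    omega
  have hψ1 : ψ ≠ 1 := by
    have : NeZero (N₁ * ℓ ^ K) := ⟨mul_ne_zero hN0 (pow_ne_zero _ hℓp.ne_zero)⟩
    intro h
    rw [h, DirichletCharacter.conductor_one] at hc
    have := Nat.dvd_one.1 hc
    exact (Nat.one_lt_pow (by omega) hℓp.one_lt).ne' this
  have hsum : ∑ a ∈ range (N₁ * ℓ ^ K), fst hcop ψ (a : ZMod N₁) * snd hcop ψ (a : ZMod (ℓ ^ K)) = 0 := by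
    rw [← sum_char (mul_ne_zero hN0 (pow_ne_zero _ hℓp.ne_zero)) ψ hψ1]
    exact Finset.sum_congr rfl fun a _ => (dec_nat hcop ψ a).symm
  have key := unit_main hp (fst hcop ψ) (snd hcop ψ) (by omega) hA hn1.1 hnK hn1.2 hu huc hψ₁ hprim hN₁ hpN hpℓ
    (by rw [← dec_neg, hpar]) hm1 (by omega) hsize hsum
  simp only [← dec_nat] at key
  rw [lValue_eq hN1]
  exact key

theorem result (p : ℕ) (hp : p.Prime) (h5 : 5 ≤ p) (ℓ : ℕ) (hℓ : ℓ = 2 ∨ ℓ = 3) (N₁ g n : ℕ)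
    (hN₁ : N₁.Coprime ℓ) (hpN : ¬ p ∣ N₁) (hg : Even g) (hφ : N₁.totient ∣ p ^ g - 1)
    (hn : ℓ ^ n ∣ p ^ g - 1) (hn' : ¬ ℓ ^ (n + 1) ∣ p ^ g - 1) (K m : ℕ) (hm1 : 1 ≤ m) (hmp : m ≤ p - 1)
    (hsize : m * N₁ * ℓ ^ (2 * n) ≤ ℓ ^ K) (ψ : DirichletCharacter ℂ (N₁ * ℓ ^ K))
    (hc : ℓ ^ K ∣ ψ.conductor) (hpar : ψ (-1) = (-1) ^ m) : IsUnitAt p (lValue p m ψ) :=
  part_one hp h5 hℓ hN₁ hpN hg hφ hn hn' hm1 hmp hsize ψ hc hpar

end Pool.Agent.Results.MP_c2a07f_nt.LargeConductors
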