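import Pool.Agent.Results.MP_c2a07f_nt.AlmostAllPrimes
import Pool.Agent.Y854.GM.Few
import Pool.Agent.Y854.GM.Win

/-!
# Greenberg's conjecture: all primes, or almost all primes, in windows around the terms of a dilated sequence

Let `v ≥ 1` be a sequence with exponent of convergence at most `τ` (for `v_k = k ^ κ` this is `1 / κ`, for `v_k = κ ^ k`
or `k!` it is `0`), `θ < 1` and `0 ≤ c < 1 / 2`. A prime `p` is `c`-exceptional if for `ℓ = 2` or `3`, some `K`, some `N₁`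
and `m ≥ 1` with `m N₁ ≤ p ^ c` there is a primitive character `ψ` modulo `N₁ ℓ ^ K` for which the value
`(1 - ψ(p) p ^ (m - 1)) B_{m,ψ} / m` is not a unit at `p` (if it is a unit, the component `X_θ`, `θ = ψ ω ^ m`, vanishes).
For all `α > 0` outside a set of Hausdorff dimension at most `(1 / 2 + c + τ) / (1 - θ)` there are, for all but finitely
many `k`, no exceptional primes `p ≥ 5` with `|p - α v_k| ≤ v_k ^ θ`; for all `α > 0` outside a set of dimension at most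
`(1 / 2 + c - γ + τ) / (1 - θ)` there are at most `v_k ^ γ` of them.
-/

set_option autoImplicit false

open Finset Filter Topology
open scoped ENNReal

namespace Pool.Agent.Results.MP_c2a07f_nt.PrimesInWindows

open AlmostAllPrimes (Exceptional)

/-- the exponent of convergence of the sequence `v` is at most `τ` -/
def ExpLe (v : ℕ → ℝ) (τ : ℝ) : Prop := ∀ t : ℝ, τ < t → Summable (fun n : ℕ => (v n) ^ (-t))

/-- the exceptional primes -/
def Bad (c : ℝ) : Set ℕ := {p | p.Prime ∧ 5 ≤ p ∧ Exceptional c p}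

open Classical in
lemma count_bad {c : ℝ} (hc : 0 ≤ c) (hc2 : c < 1 / 2) (ε : ℝ) (hε : 0 < ε) :
    ∃ C : ℝ, 0 ≤ C ∧ ∀ X : ℕ, 1 ≤ X → (((Ioc 0 X).filter (fun p => p ∈ Bad c)).card : ℝ) ≤
      C * (X : ℝ) ^ (1 / 2 + c + ε) := by
  refine ⟨200000 * (3 / ε) ^ 3, by positivity, fun X hX => ?_⟩
  have hX1 : (1 : ℝ) ≤ X := by exact_mod_cast hX
  rcases Nat.lt_or_ge X 2 with h2 | h2
  · have h3 : (Ioc 0 X).filter (fun p => p ∈ Bad c) = ∅ := by
      apply filter_eq_empty_iff.2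
      intro p hp hb
      rw [mem_Ioc] at hp
      have := hb.2.1
      omega
    rw [h3, card_empty, Nat.cast_zero]
    positivity
  · have hlog : Real.log X ≤ (X : ℝ) ^ (ε / 3) / (ε / 3) := Real.log_le_rpow_div (by linarith) (by positivity)
    have hlog0 : 0 ≤ Real.log (X : ℝ) := Real.log_nonneg hX1
    have hpow : Real.log (X : ℝ) ^ 3 ≤ (3 / ε) ^ 3 * (X : ℝ) ^ ε := by
      have e1 : ((X : ℝ) ^ (ε / 3)) ^ 3 = (X : ℝ) ^ ε := by
        rw [← Real.rpow_natCast, ← Real.rpow_mul (by linarith)]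
        congr 1
        push_cast
        ring
      calc Real.log (X : ℝ) ^ 3 ≤ ((X : ℝ) ^ (ε / 3) / (ε / 3)) ^ 3 := pow_le_pow_left₀ hlog0 hlog 3
        _ = (3 / ε) ^ 3 * ((X : ℝ) ^ (ε / 3)) ^ 3 := by
            rw [div_pow, div_pow, div_pow]
            field_simp
        _ = (3 / ε) ^ 3 * (X : ℝ) ^ ε := by rw [e1]
    have h4 : (((Ioc 0 X).filter (fun p => p ∈ Bad c)).card : ℝ) ≤
        200000 * (X : ℝ) ^ (1 / 2 + c) * Real.log (X : ℝ) ^ 3 := by
      refine le_trans (le_of_eq ?_) (AlmostAllPrimes.result c hc hc2 X (by exact_mod_cast h2))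
      rw [← Set.ncard_coe_finset]
      congr 2
      ext p
      rw [coe_filter, Set.mem_ofPred_eq, mem_Ioc, Set.mem_ofPred_eq]
      constructor
      · rintro ⟨⟨-, h3⟩, h4, h5, h6⟩
        exact ⟨h4, h5, by exact_mod_cast h3, h6⟩
      · rintro ⟨h4, h5, h3, h6⟩
        exact ⟨⟨by omega, by exact_mod_cast h3⟩, h4, h5, h6⟩
    refine h4.trans ((mul_le_mul_of_nonneg_left hpow (by positivity)).trans (le_of_eq ?_))
    rw [Real.rpow_add (by linarith : (0 : ℝ) < X) (1 / 2 + c) ε]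
    ring

/-- **Theorem.** Let `v ≥ 1` be a sequence of exponent of convergence at most `τ ≥ 0`, `θ < 1` and `0 ≤ c < 1 / 2`. (1)
There is a set `E` of Hausdorff dimension at most `(1 / 2 + c + τ) / (1 - θ)` such that for each `α > 0` outside `E` and all
but finitely many `k`, no prime `p ≥ 5` with `|p - α v_k| ≤ v_k ^ θ` is exceptional for `c`. (2) Let `γ ≤ 1 / 2`. There is
`E` of dimension at most `(1 / 2 + c - γ + τ) / (1 - θ)` such that for each `α > 0` outside `E` and all but finitely many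
`k`, at most `v_k ^ γ` primes `p ≥ 5` with `|p - α v_k| ≤ v_k ^ θ` are exceptional for `c`. The sequences
`v_k = (k + 1) ^ κ` and `v_k = κ ^ k` have exponent of convergence at most `1 / κ` and `0`. -/
theorem result :
    (∀ (v : ℕ → ℝ) (τ θ c : ℝ), (∀ k, 1 ≤ v k) → 0 ≤ τ → ExpLe v τ → θ < 1 → 0 ≤ c → c < 1 / 2 →
      (∃ E : Set ℝ, dimH E ≤ ENNReal.ofReal ((1 / 2 + c + τ) / (1 - θ)) ∧
        ∀ α : ℝ, 0 < α → α ∉ E →
          ∃ k₀ : ℕ, ∀ k : ℕ, k₀ ≤ k → ∀ p : ℕ, p.Prime → 5 ≤ p → |(p : ℝ) - α * v k| ≤ (v k) ^ θ →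
            ¬ Exceptional c p) ∧
      (∀ γ : ℝ, γ ≤ 1 / 2 →
        ∃ E : Set ℝ, dimH E ≤ ENNReal.ofReal ((1 / 2 + c - γ + τ) / (1 - θ)) ∧
        ∀ α : ℝ, 0 < α → α ∉ E →
          ∃ k₀ : ℕ, ∀ k : ℕ, k₀ ≤ k →
            ({p : ℕ | p.Prime ∧ 5 ≤ p ∧ |(p : ℝ) - α * v k| ≤ (v k) ^ θ ∧ Exceptional c p}.ncard : ℝ) ≤
              (v k) ^ γ)) ∧
    (∀ κ : ℝ, 0 < κ → ExpLe (fun n : ℕ => ((n : ℝ) + 1) ^ κ) (1 / κ)) ∧
    (∀ κ : ℝ, 1 < κ → ExpLe (fun n : ℕ => κ ^ n) 0) := by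
  classical
  refine ⟨fun v τ θ c hv hτ hE hθ1 hc hc2 => ⟨?_, fun γ hγ => ?_⟩,
    fun κ hκ => Pool.Agent.Y854.GM.expLe_pow κ hκ, fun κ hκ => Pool.Agent.Y854.GM.expLe_geom κ hκ⟩
  · obtain ⟨E, h3, h4⟩ := Pool.Agent.Y854.GM.win_nat (Bad c) hv hτ hE
      (s := 1 / 2 + c) (by linarith) hθ1 (fun ε hε => by
        obtain ⟨C, hC, h⟩ := count_bad hc hc2 ε hε
        refine ⟨C, fun X hX => le_trans (le_of_eq ?_) (h X hX)⟩
        congr)
    refine ⟨E, h3, fun α hα hαE => ?_⟩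
    obtain ⟨k₀, hk⟩ := h4 α hα hαE
    exact ⟨k₀, fun k hk1 p hp h5 hw he => (hk k hk1 p hw).2 ⟨hp, h5, he⟩⟩
  · have hset : ∀ (α : ℝ) (k : ℕ), {m : ℕ | m ∈ Bad c ∧ |(m : ℝ) - α * v k| ≤ (v k) ^ θ}.Finite := by
      intro α k
      refine (Set.finite_Iic ⌊α * v k + (v k) ^ θ⌋₊).subset ?_
      rintro m ⟨-, h⟩
      apply Nat.le_floor
      linarith [(abs_le.1 h).2]
    obtain ⟨E, h3, h4⟩ := Pool.Agent.Y854.GM.few_nat (Bad c) (fun h0 => by
        have := h0.2.1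
        omega) γ (s := 1 / 2 + c) (by linarith) hv hτ hE (by linarith) hθ1 (fun ε hε => by
        obtain ⟨C, hC, h⟩ := count_bad hc hc2 ε hε
        refine ⟨C, fun X hX => le_trans (le_of_eq ?_) (h X hX)⟩
        congr)
    refine ⟨E, h3.trans (le_of_eq ?_), fun α hα hαE => ?_⟩
    · congr 2
      try ring
    · obtain ⟨k₀, hk⟩ := h4 α hα hαE
      refine ⟨k₀, fun k hk1 => le_trans (Nat.cast_le.2 (Set.ncard_le_ncard ?_ (hset α k))) (hk k hk1)⟩
      rintro p ⟨hp, h5, hw, he⟩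
      exact ⟨⟨hp, h5, he⟩, hw⟩

end Pool.Agent.Results.MP_c2a07f_nt.PrimesInWindows
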